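import Mathlib

/-!
# A Schreier type space with two norms
-/

open Filter Topology
open scoped ENNReal

namespace Pool.Agent.Lib_MP_a61181_an

/-- The Schreier family. -/
def S1 (F : Finset ℕ) : Prop := ∀ i ∈ F, F.card ≤ i

/-- The next family. -/
def Next (fam : Finset ℕ → Prop) (F : Finset ℕ) : Prop :=
  ∃ 𝒢 : Finset (Finset ℕ), (∀ G ∈ 𝒢, fam G) ∧ F ⊆ 𝒢.biUnion id ∧ ∀ i ∈ F, 𝒢.card ≤ i

/-- The second Schreier family. -/
def S2 (F : Finset ℕ) : Prop := Next S1 F

theorem Next.mono {fam : Finset ℕ → Prop} {F F' : Finset ℕ} (h : Next fam F) (hs : F' ⊆ F) :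
    Next fam F' := by
  obtain ⟨𝒢, h1, h2, h3⟩ := h
  exact ⟨𝒢, h1, hs.trans h2, fun i hi => h3 i (hs hi)⟩

theorem S2.mono {F F' : Finset ℕ} (h : S2 F) (hs : F' ⊆ F) : S2 F' := Next.mono h hs

theorem S1.mono {F F' : Finset ℕ} (h : S1 F) (hs : F' ⊆ F) : S1 F' :=
  fun i hi => (Finset.card_le_card hs).trans (h i (hs hi))

theorem S1.s2 {F : Finset ℕ} (h : S1 F) : S2 F := by
  refine ⟨{F}, by simpa using h, by simp, fun i hi => ?_⟩
  have h1 : 0 < F.card := Finset.card_pos.mpr ⟨i, hi⟩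
  have := h i hi
  rw [Finset.card_singleton]
  omega

theorem S1_singleton {i : ℕ} (hi : 1 ≤ i) : S1 {i} := by
  intro j hj
  simp only [Finset.mem_singleton] at hj
  subst hj
  simpa using hi

theorem S2.pos {F : Finset ℕ} (h : S2 F) {i : ℕ} (hi : i ∈ F) : 1 ≤ i := by
  obtain ⟨𝒢, h1, h2, h3⟩ := h
  have h4 := h2 hi
  simp only [Finset.mem_biUnion, id] at h4
  obtain ⟨G, hG, hiG⟩ := h4
  have : 0 < 𝒢.card := Finset.card_pos.mpr ⟨G, hG⟩
  have := h3 i hi
  omega

open Classical in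
/-- The weight of a finite set. -/
noncomputable def wt (θ : ℝ) (F : Finset ℕ) : ℝ := if S1 F then 1 else if S2 F then θ else 0

theorem wt_nonneg {θ : ℝ} (h0 : 0 < θ) (F : Finset ℕ) : 0 ≤ wt θ F := by
  unfold wt
  split_ifs <;> linarith

theorem wt_le_one {θ : ℝ} (h1 : θ < 1) (F : Finset ℕ) : wt θ F ≤ 1 := by
  unfold wt
  split_ifs <;> linarith

theorem wt_s1 {θ : ℝ} {F : Finset ℕ} (h : S1 F) : wt θ F = 1 := by
  unfold wt
  rw [if_pos h]

theorem wt_not {θ : ℝ} {F : Finset ℕ} (h : ¬ S2 F) : wt θ F = 0 := by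
  unfold wt
  rw [if_neg (fun h1 => h h1.s2), if_neg h]

theorem le_wt {θ : ℝ} (h1 : θ < 1) {F : Finset ℕ} (h : S2 F) : θ ≤ wt θ F := by
  unfold wt
  split_ifs <;> linarith

theorem wt_zero {θ : ℝ} {F : Finset ℕ} (h : 0 ∈ F) : wt θ F = 0 := by
  apply wt_not
  intro h2
  have := h2.pos h
  omega

/-- The big space. -/
abbrev Big : Type := lp (fun _ : Finset ℕ => ℝ) ∞

/-- The subspace. -/
noncomputable def SS (θ : ℝ) : Submodule ℝ Big where
  carrier := {z | (∀ F, z F = wt θ F * ∑ i ∈ F, z {i}) ∧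
    ∀ δ : ℝ, 0 < δ → ∃ P : ℕ, ∀ F : Finset ℕ, (∀ i ∈ F, P ≤ i) → |z F| ≤ δ}
  zero_mem' := by
    refine ⟨fun F => ?_, fun δ hδ => ⟨0, fun F _ => ?_⟩⟩
    · simp
    · simpa using hδ.le
  add_mem' := by
    rintro a b ⟨ha1, ha2⟩ ⟨hb1, hb2⟩
    refine ⟨fun F => ?_, fun δ hδ => ?_⟩
    · simp only [lp.coeFn_add, Pi.add_apply]
      rw [ha1 F, hb1 F, Finset.sum_add_distrib]
      ring
    · obtain ⟨P, hP⟩ := ha2 (δ / 2) (by positivity)
      obtain ⟨Q, hQ⟩ := hb2 (δ / 2) (by positivity)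
      refine ⟨max P Q, fun F hF => ?_⟩
      simp only [lp.coeFn_add, Pi.add_apply]
      have h1 := hP F fun i hi => (le_max_left _ _).trans (hF i hi)
      have h2 := hQ F fun i hi => (le_max_right _ _).trans (hF i hi)
      have h3 := abs_add_le (a F) (b F)
      linarith
  smul_mem' := by
    rintro c a ⟨ha1, ha2⟩
    refine ⟨fun F => ?_, fun δ hδ => ?_⟩
    · simp only [lp.coeFn_smul, Pi.smul_apply, smul_eq_mul]
      rw [ha1 F, ← Finset.mul_sum]
      ring
    · obtain ⟨P, hP⟩ := ha2 (δ / (|c| + 1)) (by positivity)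
      refine ⟨P, fun F hF => ?_⟩
      simp only [lp.coeFn_smul, Pi.smul_apply, smul_eq_mul, abs_mul]
      have h1 := hP F hF
      have h2 : |c| * |a F| ≤ |c| * (δ / (|c| + 1)) :=
        mul_le_mul_of_nonneg_left h1 (abs_nonneg _)
      refine h2.trans ?_
      rw [mul_div_assoc', div_le_iff₀ (by positivity)]
      nlinarith [abs_nonneg c]

theorem isClosed_SS (θ : ℝ) : IsClosed ((SS θ : Submodule ℝ Big) : Set Big) := by
  have hcont : ∀ F : Finset ℕ, Continuous fun z : Big => z F := fun F =>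
    (lp.lipschitzWith_one_eval ∞ F).continuous
  have h1 : IsClosed {z : Big | ∀ F, z F = wt θ F * ∑ i ∈ F, z {i}} := by
    rw [Set.setOf_forall]
    refine isClosed_iInter fun F => ?_
    refine isClosed_eq (hcont F) ?_
    exact continuous_const.mul (continuous_finset_sum _ fun i _ => hcont {i})
  have h2 : IsClosed {z : Big | ∀ δ : ℝ, 0 < δ → ∃ P : ℕ, ∀ F : Finset ℕ,
      (∀ i ∈ F, P ≤ i) → |z F| ≤ δ} := by
    refine isClosed_of_closure_subset fun z hz δ hδ => ?_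
    rw [Metric.mem_closure_iff] at hz
    obtain ⟨y, hy, hyz⟩ := hz (δ / 2) (by positivity)
    obtain ⟨P, hP⟩ := hy (δ / 2) (by positivity)
    refine ⟨P, fun F hF => ?_⟩
    have h3 := hP F hF
    have h4 : ‖(z - y) F‖ ≤ ‖z - y‖ := lp.norm_apply_le_norm (by simp) _ _
    rw [dist_eq_norm] at hyz
    rw [lp.coeFn_sub, Pi.sub_apply, Real.norm_eq_abs] at h4
    have h5 : |z F| ≤ |z F - y F| + |y F| := by
      have := abs_add_le (z F - y F) (y F)
      simpa using this
    linarith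
  exact h1.inter h2

theorem exists_space (θ : ℝ) (h0 : 0 < θ) (h1 : θ < 1) :
    ∃ (X : Type) (_ : NormedAddCommGroup X) (_ : NormedSpace ℝ X) (_ : CompleteSpace X)
      (c : ℕ → X →L[ℝ] ℝ) (e : ℕ → X),
      (∀ (z : X) (F : Finset ℕ), S1 F → |∑ i ∈ F, c i z| ≤ ‖z‖) ∧
      (∀ (z : X) (F : Finset ℕ), S2 F → θ * |∑ i ∈ F, c i z| ≤ ‖z‖) ∧
      (∀ (z : X) (C : ℝ), 0 ≤ C → (∀ F : Finset ℕ, S1 F → |∑ i ∈ F, c i z| ≤ C) →
        (∀ F : Finset ℕ, S2 F → θ * |∑ i ∈ F, c i z| ≤ C) → ‖z‖ ≤ C) ∧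
      (∀ (z : X) (δ : ℝ), 0 < δ → ∃ P : ℕ, ∀ F : Finset ℕ, S2 F → (∀ i ∈ F, P ≤ i) →
        |∑ i ∈ F, c i z| ≤ δ) ∧
      (∀ n i : ℕ, 1 ≤ i → c i (e n) = if i = n then 1 else 0) := by
  haveI : CompleteSpace (SS θ) := (isClosed_SS θ).completeSpace_coe
  have key : ∀ (z : SS θ) (F : Finset ℕ), (z : Big) F = wt θ F * ∑ i ∈ F, (z : Big) {i} :=
    fun z F => z.2.1 F
  have hnorm : ∀ (z : SS θ) (F : Finset ℕ), |(z : Big) F| ≤ ‖z‖ := fun z F => by
    have := lp.norm_apply_le_norm (p := ∞) (by simp) (z : Big) F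
    simpa using this
  -- the unit vectors
  have he : ∀ n : ℕ, ∃ e : SS θ, ∀ i, 1 ≤ i → (e : Big) {i} = if i = n then 1 else 0 := by
    intro n
    have hb : Memℓp (fun F : Finset ℕ => (wt θ F * if n ∈ F then 1 else 0 : ℝ)) ∞ := by
      refine memℓp_infty ⟨1, ?_⟩
      rintro x ⟨F, rfl⟩
      simp only [Real.norm_eq_abs]
      rw [abs_mul]
      have h2 : |wt θ F| ≤ 1 := by
        rw [abs_of_nonneg (wt_nonneg h0 F)]
        exact wt_le_one h1 F
      have h3 : |(if n ∈ F then 1 else 0 : ℝ)| ≤ 1 := by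
        split_ifs <;> simp
      have := mul_le_mul h2 h3 (abs_nonneg _) zero_le_one
      simpa using this
    let e : Big := ⟨_, hb⟩
    have hee : ∀ F : Finset ℕ, e F = wt θ F * if n ∈ F then 1 else 0 := fun F => rfl
    have hsing : ∀ i, e {i} = if i = n ∧ 1 ≤ i then 1 else 0 := by
      intro i
      rw [hee]
      by_cases hi : 1 ≤ i
      · rw [wt_s1 (S1_singleton hi)]
        simp [hi, eq_comm]
      · have : i = 0 := by omega
        subst this
        rw [wt_zero (by simp)]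
        simp
    refine ⟨⟨e, fun F => ?_, fun δ hδ => ⟨n + 1, fun F hF => ?_⟩⟩, fun i hi => ?_⟩
    · rw [hee]
      by_cases h2 : S2 F
      · congr 1
        have h3 : ∀ i ∈ F, e {i} = if i = n then 1 else 0 := by
          intro i hi
          rw [hsing]
          simp [h2.pos hi]
        rw [Finset.sum_congr rfl h3]
        simp
      · rw [wt_not h2]
        simp
    · rw [hee, if_neg]
      · simpa using hδ.le
      · intro hn
        have := hF n hn
        omega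
    · show e {i} = _
      rw [hsing]
      simp [hi]
  choose e he using he
  let c : ℕ → SS θ →L[ℝ] ℝ := fun i =>
    (lp.evalCLM ℝ (fun _ : Finset ℕ => ℝ) ∞ {i}).comp (SS θ).subtypeL
  have hc : ∀ i z, c i z = (z : Big) {i} := fun i z => rfl
  refine ⟨SS θ, inferInstance, inferInstance, inferInstance, c, e, ?_, ?_, ?_, ?_, ?_⟩
  · intro z F hF
    simp only [hc]
    have h2 := key z F
    rw [wt_s1 hF, one_mul] at h2
    rw [← h2]
    exact hnorm z F
  · intro z F hF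
    simp only [hc]
    have h2 := key z F
    have h3 := hnorm z F
    rw [h2, abs_mul, abs_of_nonneg (wt_nonneg h0 F)] at h3
    exact (mul_le_mul_of_nonneg_right (le_wt h1 hF) (abs_nonneg _)).trans h3
  · intro z C hC hC1 hC2
    have h2 : ‖(z : Big)‖ ≤ C := by
      refine lp.norm_le_of_forall_le hC fun F => ?_
      rw [Real.norm_eq_abs, key z F, abs_mul, abs_of_nonneg (wt_nonneg h0 F)]
      by_cases hF1 : S1 F
      · rw [wt_s1 hF1, one_mul]
        exact hC1 F hF1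
      · by_cases hF2 : S2 F
        · have : wt θ F = θ := by
            unfold wt
            rw [if_neg hF1, if_pos hF2]
          rw [this]
          exact hC2 F hF2
        · rw [wt_not hF2, zero_mul]
          exact hC
    exact h2
  · intro z δ hδ
    obtain ⟨P, hP⟩ := z.2.2 (θ * δ) (by positivity)
    refine ⟨P, fun F hF hPF => ?_⟩
    have h2 := hP F hPF
    have h3 := key z F
    simp only [hc]
    rw [h3, abs_mul, abs_of_nonneg (wt_nonneg h0 F)] at h2
    have h4 := (mul_le_mul_of_nonneg_right (le_wt h1 hF) (abs_nonneg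
      (∑ i ∈ F, (z : Big) {i}))).trans h2
    exact le_of_mul_le_mul_left h4 h0
  · intro n i hi
    rw [hc]
    exact he n i hi

end Pool.Agent.Lib_MP_a61181_an
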