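import Pool.Agent.Lib_MP_a61181_an.Defs
import Pool.Agent.Lib_MP_a61181_an.Space

/-!
# The repeated averages of order one
-/

open Filter Topology

namespace Pool.Agent.Lib_MP_a61181_an

/-- The end points of the blocks for order one. -/
def kk (M : ℕ → ℕ) : ℕ → ℕ
  | 0 => 0
  | n + 1 => kk M n + M (kk M n)

theorem minSupp_single (m : ℕ) : minSupp (Finsupp.single m 1) = m := by
  unfold minSupp
  have h : {i | (Finsupp.single m (1 : ℝ)) i ≠ 0} = {m} := by
    ext i
    simp only [Finsupp.single_apply, ne_eq, ite_eq_right_iff, one_ne_zero, imp_false, not_not,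
      Set.mem_singleton_iff]
    exact eq_comm
  rw [h]
  exact csInf_singleton m

theorem kSeq_eq (M : ℕ → ℕ) (n : ℕ) : kSeq (repAvg 0 M) n = kk M n := by
  induction n with
  | zero => rfl
  | succ n ih =>
    show kSeq (repAvg 0 M) n + minSupp (repAvg 0 M (kSeq (repAvg 0 M) n)) = _
    rw [ih]
    show kk M n + minSupp (Finsupp.single (M (kk M n)) 1) = _
    rw [minSupp_single]
    rfl

section

variable {X : Type} [NormedAddCommGroup X] [NormedSpace ℝ X]

theorem dot_repAvg (M : ℕ → ℕ) (x : ℕ → X) (n : ℕ) : dot (repAvg 1 M n) x =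
    (M (kk M n) : ℝ)⁻¹ • ∑ i ∈ Finset.range (M (kk M n)), x (M (kk M n + i)) := by
  have h1 : repAvg 1 M n = (M (kk M n) : ℝ)⁻¹ •
      ∑ i ∈ Finset.range (M (kk M n)), Finsupp.single (M (kk M n + i)) 1 := by
    show nextAvg (repAvg 0 M) n = _
    unfold nextAvg
    rw [kSeq_eq]
    have h2 : ∀ j, repAvg 0 M j = Finsupp.single (M j) 1 := fun j => rfl
    simp only [h2, minSupp_single]
  have h3 : dot (repAvg 1 M n) x = Finsupp.linearCombination ℝ x (repAvg 1 M n) := rfl
  rw [h3, h1, map_smul, map_sum]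
  simp

end

theorem M_ge {M : ℕ → ℕ} (hM : StrictMono M) (h0 : 0 < M 0) (i : ℕ) : i + 1 ≤ M i := by
  induction i with
  | zero => exact h0
  | succ i ih =>
    have := hM (Nat.lt_succ_self i)
    simp only [Nat.succ_eq_add_one] at this
    omega

theorem kk_ge {M : ℕ → ℕ} (hM : StrictMono M) (h0 : 0 < M 0) (n : ℕ) : n ≤ kk M n := by
  induction n with
  | zero => exact le_rfl
  | succ n ih =>
    have := M_ge hM h0 (kk M n)
    show n + 1 ≤ kk M n + M (kk M n)
    omega

theorem kk_strictMono {M : ℕ → ℕ} (hM : StrictMono M) (h0 : 0 < M 0) : StrictMono (kk M) := by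
  refine strictMono_nat_of_lt_succ fun n => ?_
  have := M_ge hM h0 (kk M n)
  show kk M n < kk M n + M (kk M n)
  omega

theorem sum_blocks (M : ℕ → ℕ) (g : ℕ → ℝ) (N : ℕ) :
    ∑ n ∈ Finset.range N, ∑ i ∈ Finset.range (M (kk M n)), g (kk M n + i) =
      ∑ i ∈ Finset.range (kk M N), g i := by
  induction N with
  | zero => simp [kk]
  | succ N ih =>
    rw [Finset.sum_range_succ, ih]
    show _ = ∑ i ∈ Finset.range (kk M N + M (kk M N)), g i
    rw [Finset.sum_range_add]

theorem avg_bound {M : ℕ → ℕ} (hM : StrictMono M) (hM0 : 0 < M 0) {θ : ℝ} (hθ : 0 ≤ θ)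
    (r : ℕ → ℝ) (j0 P : ℕ) (τ : ℕ → ℝ) (h2 : ∀ i, |r i| ≤ 2)
    (hlt : ∀ i, i < j0 → |r i| ≤ (1 / 2) ^ i)
    (hgt : ∀ i, j0 < i → |r i| ≤ θ + 4 * (1 / 2) ^ i + τ i) (hτ0 : ∀ i, 0 ≤ τ i)
    (hτ : ∀ K, ∑ i ∈ Finset.range K, τ i ≤ 4 * P) (hP : 1 ≤ P) (hMP : ∀ i, j0 < i → P ≤ M i)
    (N : ℕ) :
    |∑ n ∈ Finset.range N, (M (kk M n) : ℝ)⁻¹ *
      ∑ i ∈ Finset.range (M (kk M n)), r (kk M n + i)| ≤ N * θ + 14 := by
  have hPr : (1 : ℝ) ≤ P := by exact_mod_cast hP
  let g : ℕ → ℝ := fun i => 4 * (1 / 2) ^ i + τ i / P + if i = j0 then 2 else 0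
  have hg0 : ∀ i, 0 ≤ g i := by
    intro i
    have h1 : 0 ≤ τ i / P := div_nonneg (hτ0 i) (by positivity)
    have h3 : (0 : ℝ) ≤ if i = j0 then 2 else 0 := by split_ifs <;> norm_num
    have h4 : (0 : ℝ) ≤ 4 * (1 / 2) ^ i := by positivity
    show 0 ≤ 4 * (1 / 2 : ℝ) ^ i + τ i / P + if i = j0 then 2 else 0
    linarith
  have hblock : ∀ n, |(M (kk M n) : ℝ)⁻¹ * ∑ i ∈ Finset.range (M (kk M n)), r (kk M n + i)| ≤
      θ + ∑ i ∈ Finset.range (M (kk M n)), g (kk M n + i) := by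
    intro n
    set k := kk M n with hk
    set s := M k with hs
    have hs1 : 1 ≤ s := by
      have := M_ge hM hM0 k
      omega
    have hs1r : (1 : ℝ) ≤ s := by exact_mod_cast hs1
    have hsinv : (s : ℝ)⁻¹ ≤ 1 := inv_le_one_of_one_le₀ hs1r
    have hsinv0 : 0 ≤ (s : ℝ)⁻¹ := by positivity
    rw [abs_mul, abs_of_nonneg hsinv0]
    have habs : |∑ i ∈ Finset.range s, r (k + i)| ≤ ∑ i ∈ Finset.range s, |r (k + i)| :=
      Finset.abs_sum_le_sum_abs _ _
    refine (mul_le_mul_of_nonneg_left habs hsinv0).trans ?_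
    rcases Nat.lt_or_ge j0 k with hj | hj
    · -- late blocks
      have h3 : ∑ i ∈ Finset.range s, |r (k + i)| ≤
          ∑ i ∈ Finset.range s, (θ + (4 * (1 / 2) ^ (k + i) + τ (k + i))) := by
        apply Finset.sum_le_sum
        intro i _
        have := hgt (k + i) (by omega)
        linarith
      rw [Finset.sum_add_distrib, Finset.sum_const, Finset.card_range, nsmul_eq_mul] at h3
      have h4 : (s : ℝ)⁻¹ * ∑ i ∈ Finset.range s, (4 * (1 / 2 : ℝ) ^ (k + i) + τ (k + i)) ≤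
          ∑ i ∈ Finset.range s, g (k + i) := by
        rw [Finset.mul_sum]
        apply Finset.sum_le_sum
        intro i _
        have h5 : (s : ℝ)⁻¹ * (4 * (1 / 2 : ℝ) ^ (k + i)) ≤ 4 * (1 / 2 : ℝ) ^ (k + i) := by
          have : (0 : ℝ) ≤ 4 * (1 / 2 : ℝ) ^ (k + i) := by positivity
          nlinarith
        have h6 : (s : ℝ)⁻¹ * τ (k + i) ≤ τ (k + i) / P := by
          rw [div_eq_inv_mul]
          apply mul_le_mul_of_nonneg_right _ (hτ0 _)
          apply inv_anti₀ (by positivity)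
          exact_mod_cast hMP k hj
        have h7 : (0 : ℝ) ≤ if k + i = j0 then 2 else 0 := by split_ifs <;> norm_num
        show _ ≤ 4 * (1 / 2 : ℝ) ^ (k + i) + τ (k + i) / P + if k + i = j0 then 2 else 0
        rw [mul_add]
        linarith
      calc (s : ℝ)⁻¹ * ∑ i ∈ Finset.range s, |r (k + i)| ≤ (s : ℝ)⁻¹ * (s * θ +
            ∑ i ∈ Finset.range s, (4 * (1 / 2 : ℝ) ^ (k + i) + τ (k + i))) :=
            mul_le_mul_of_nonneg_left h3 hsinv0
        _ = θ + (s : ℝ)⁻¹ * ∑ i ∈ Finset.range s, (4 * (1 / 2 : ℝ) ^ (k + i) + τ (k + i)) := by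
            rw [mul_add, ← mul_assoc, inv_mul_cancel₀ (by positivity), one_mul]
        _ ≤ _ := by linarith
    · rcases Nat.lt_or_ge j0 (k + s) with hj' | hj'
      · -- the middle block
        have h3 : ∑ i ∈ Finset.range s, |r (k + i)| ≤ ∑ _i ∈ Finset.range s, (2 : ℝ) :=
          Finset.sum_le_sum fun i _ => h2 _
        rw [Finset.sum_const, Finset.card_range, nsmul_eq_mul] at h3
        have h4 : (s : ℝ)⁻¹ * ∑ i ∈ Finset.range s, |r (k + i)| ≤ 2 := by
          calc (s : ℝ)⁻¹ * ∑ i ∈ Finset.range s, |r (k + i)| ≤ (s : ℝ)⁻¹ * (s * 2) :=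
              mul_le_mul_of_nonneg_left h3 hsinv0
            _ = 2 := by rw [← mul_assoc, inv_mul_cancel₀ (by positivity), one_mul]
        have h5 : g (k + (j0 - k)) ≤ ∑ i ∈ Finset.range s, g (k + i) :=
          Finset.single_le_sum (f := fun i => g (k + i)) (fun i _ => hg0 _)
            (Finset.mem_range.mpr (by omega))
        have h6 : k + (j0 - k) = j0 := by omega
        rw [h6] at h5
        have h7 : (2 : ℝ) ≤ g j0 := by
          have h1 : 0 ≤ τ j0 / P := div_nonneg (hτ0 j0) (by positivity)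
          have h4 : (0 : ℝ) ≤ 4 * (1 / 2) ^ j0 := by positivity
          show 2 ≤ 4 * (1 / 2 : ℝ) ^ j0 + τ j0 / P + if j0 = j0 then 2 else 0
          rw [if_pos rfl]
          linarith
        linarith
      · -- early blocks
        have h3 : (s : ℝ)⁻¹ * ∑ i ∈ Finset.range s, |r (k + i)| ≤
            ∑ i ∈ Finset.range s, g (k + i) := by
          rw [Finset.mul_sum]
          apply Finset.sum_le_sum
          intro i hi
          rw [Finset.mem_range] at hi
          have h4 := hlt (k + i) (by omega)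
          have h5 := abs_nonneg (r (k + i))
          have h6 : (0 : ℝ) ≤ (1 / 2 : ℝ) ^ (k + i) := by positivity
          have h1 : 0 ≤ τ (k + i) / P := div_nonneg (hτ0 _) (by positivity)
          have h7 : (0 : ℝ) ≤ if k + i = j0 then 2 else 0 := by split_ifs <;> norm_num
          show _ ≤ 4 * (1 / 2 : ℝ) ^ (k + i) + τ (k + i) / P + if k + i = j0 then 2 else 0
          nlinarith
        linarith
  calc |∑ n ∈ Finset.range N, (M (kk M n) : ℝ)⁻¹ *
      ∑ i ∈ Finset.range (M (kk M n)), r (kk M n + i)|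
      ≤ ∑ n ∈ Finset.range N, |(M (kk M n) : ℝ)⁻¹ *
      ∑ i ∈ Finset.range (M (kk M n)), r (kk M n + i)| := Finset.abs_sum_le_sum_abs _ _
    _ ≤ ∑ n ∈ Finset.range N, (θ + ∑ i ∈ Finset.range (M (kk M n)), g (kk M n + i)) :=
      Finset.sum_le_sum fun n _ => hblock n
    _ = N * θ + ∑ i ∈ Finset.range (kk M N), g i := by
      rw [Finset.sum_add_distrib, sum_blocks, Finset.sum_const, Finset.card_range, nsmul_eq_mul]
    _ ≤ N * θ + 14 := by
      have h1 : ∑ i ∈ Finset.range (kk M N), g i = 4 * ∑ i ∈ Finset.range (kk M N), (1 / 2 : ℝ) ^ i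
          + (∑ i ∈ Finset.range (kk M N), τ i) / P +
          ∑ i ∈ Finset.range (kk M N), (if i = j0 then 2 else 0 : ℝ) := by
        show ∑ i ∈ Finset.range (kk M N),
          (4 * (1 / 2 : ℝ) ^ i + τ i / P + if i = j0 then 2 else 0) = _
        rw [Finset.sum_add_distrib, Finset.sum_add_distrib, ← Finset.mul_sum, Finset.sum_div]
      have h3 := sum_geometric_two_le (kk M N)
      have h4 : (∑ i ∈ Finset.range (kk M N), τ i) / P ≤ 4 := by
        rw [div_le_iff₀ (by positivity)]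
        exact hτ _
      have h5 : ∑ i ∈ Finset.range (kk M N), (if i = j0 then 2 else 0 : ℝ) ≤ 2 := by
        rw [Finset.sum_ite_eq']
        split_ifs <;> norm_num
      rw [h1]
      linarith

end Pool.Agent.Lib_MP_a61181_an
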