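import Mathlib

/-!
# Repeated averages (of finite order) and the weak Banach-Saks quantities

Sequences of vectors are indexed by the natural numbers; a set `M = {m_1 < m_2 < ...}` of positive
integers is given by its strictly increasing enumeration `M 0 < M 1 < ...` with `0 < M 0`, and all
sequences of vectors of `ℓ_1` are indexed from `0` instead of from `1`.
-/

open Filter Topology

namespace Pool.Agent.Lib_MP_a61181_an

/-- The least element of the support of a finitely supported sequence. -/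
noncomputable def minSupp (a : ℕ →₀ ℝ) : ℕ := sInf {i | a i ≠ 0}

/-- The end points of the blocks: `k 0 = 0` and `k (n+1) = k n + min supp (A (k n))`. -/
noncomputable def kSeq (A : ℕ → ℕ →₀ ℝ) : ℕ → ℕ
  | 0 => 0
  | n + 1 => kSeq A n + minSupp (A (kSeq A n))

/-- The successor step of the repeated averages hierarchy:
the `n`-th term is `(1/s) (A (k n) + ... + A (k n + s - 1))` with `s = min supp (A (k n))`. -/
noncomputable def nextAvg (A : ℕ → ℕ →₀ ℝ) (n : ℕ) : ℕ →₀ ℝ :=
  (minSupp (A (kSeq A n)) : ℝ)⁻¹ •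
    ∑ i ∈ Finset.range (minSupp (A (kSeq A n))), A (kSeq A n + i)

/-- The repeated averages of finite order `ξ` on `M`. -/
noncomputable def repAvg : ℕ → (ℕ → ℕ) → ℕ → (ℕ →₀ ℝ)
  | 0, M => fun n => Finsupp.single (M n) 1
  | ξ + 1, M => nextAvg (repAvg ξ M)

variable {X : Type} [NormedAddCommGroup X] [NormedSpace ℝ X]

/-- `a · (x_k) = ∑ a_k x_k`. -/
noncomputable def dot (a : ℕ →₀ ℝ) (x : ℕ → X) : X := a.sum fun k c => c • x k

/-- `ca (y_n) = inf_n sup_{k, l ≥ n} ‖y_k - y_l‖`. -/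
noncomputable def ca (y : ℕ → X) : ℝ :=
  sInf (Set.range fun n => sSup {t : ℝ | ∃ k l, n ≤ k ∧ n ≤ l ∧ t = ‖y k - y l‖})

/-- `cca (x_n)`: the quantity `ca` of the sequence of Cesaro means. -/
noncomputable def cca (x : ℕ → X) : ℝ :=
  ca fun n => ((n : ℝ) + 1)⁻¹ • ∑ i ∈ Finset.range (n + 1), x i

/-- The infimum over `M` of `cca` of the repeated averages of order `ξ` on `M`. -/
noncomputable def ccaTilde (ξ : ℕ) (x : ℕ → X) : ℝ :=
  sInf {t : ℝ | ∃ M : ℕ → ℕ, StrictMono M ∧ 0 < M 0 ∧ t = cca fun n => dot (repAvg ξ M n) x}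

/-- The sequence `x` converges weakly. -/
def WeaklyConvergent (x : ℕ → X) : Prop :=
  ∃ x₀ : X, ∀ f : X →L[ℝ] ℝ, Tendsto (fun k => f (x k)) atTop (𝓝 (f x₀))

/-- The weak Banach-Saks quantity of (finite) order `ξ` of the set `A`. -/
noncomputable def wbs (ξ : ℕ) (A : Set X) : ℝ :=
  sSup {t : ℝ | ∃ x : ℕ → X, (∀ k, x k ∈ A) ∧ WeaklyConvergent x ∧ t = ccaTilde ξ x}

end Pool.Agent.Lib_MP_a61181_an
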