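import Pool.Agent.Lib_MP_a61181_an.Null
import Pool.Agent.Lib_MP_a61181_an.Avg

/-!
# Estimates for the upper bound
-/

open Filter Topology

namespace Pool.Agent.Lib_MP_a61181_an

section

variable {X : Type} [NormedAddCommGroup X] [NormedSpace ℝ X] {θ : ℝ}
  {c : ℕ → X →L[ℝ] ℝ}

/-- A bound on all subset sums gives a bound on the sum of absolute values. -/
theorem sum_abs_le (a : ℕ → ℝ) (F : Finset ℕ) (C : ℝ)
    (h : ∀ F' : Finset ℕ, F' ⊆ F → |∑ i ∈ F', a i| ≤ C) : ∑ i ∈ F, |a i| ≤ 2 * C := by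
  have h1 := h (F.filter fun i => 0 ≤ a i) (Finset.filter_subset _ _)
  have h2 := h (F.filter fun i => ¬ 0 ≤ a i) (Finset.filter_subset _ _)
  rw [← Finset.sum_filter_add_sum_filter_not F (fun i => 0 ≤ a i)]
  have h3 : ∑ i ∈ F.filter (fun i => 0 ≤ a i), |a i| = ∑ i ∈ F.filter (fun i => 0 ≤ a i), a i := by
    apply Finset.sum_congr rfl
    intro i hi
    rw [Finset.mem_filter] at hi
    exact abs_of_nonneg hi.2
  have h4 : ∑ i ∈ F.filter (fun i => ¬ 0 ≤ a i), |a i| =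
      - ∑ i ∈ F.filter (fun i => ¬ 0 ≤ a i), a i := by
    rw [← Finset.sum_neg_distrib]
    apply Finset.sum_congr rfl
    intro i hi
    rw [Finset.mem_filter] at hi
    exact abs_of_neg (not_le.mp hi.2)
  rw [h3, h4]
  have h5 := le_abs_self (∑ i ∈ F.filter (fun i => 0 ≤ a i), a i)
  have h6 := neg_abs_le (∑ i ∈ F.filter (fun i => ¬ 0 ≤ a i), a i)
  linarith

theorem s2_est (h0 : 0 < θ)
    (hlow1 : ∀ (z : X) (F : Finset ℕ), S1 F → |∑ i ∈ F, c i z| ≤ ‖z‖)
    (hlow2 : ∀ (z : X) (F : Finset ℕ), S2 F → θ * |∑ i ∈ F, c i z| ≤ ‖z‖)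
    {y x0 : X} {P Q P' : ℕ} {ε δ : ℝ} {F : Finset ℕ} {𝒢 : Finset (Finset ℕ)}
    (hG1 : ∀ G ∈ 𝒢, S1 G) (hG2 : F ⊆ 𝒢.biUnion id) (hG3 : 𝒢.card ≤ P) (hF : S2 F)
    (hhead : ∑ i ∈ Finset.range Q, |c i (y - x0)| ≤ δ)
    (htail : ∀ F' : Finset ℕ, S2 F' → (∀ i ∈ F', P' ≤ i) → |∑ i ∈ F', c i (y - x0)| ≤ δ)
    (htailx : ∀ F' : Finset ℕ, S2 F' → (∀ i ∈ F', Q ≤ i) → |∑ i ∈ F', c i x0| ≤ δ)
    (hy : ‖y‖ ≤ 1) (hz : ‖y - x0‖ ≤ 2) (hε : 0 < ε) (hQε : 4 ≤ θ * ε * Q)
    (hPε : (P : ℝ) ^ 2 * ε ≤ δ) :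
    |∑ i ∈ F, c i (y - x0)| ≤ 1 + 4 * δ +
      4 * (𝒢.filter fun G => (∀ i ∈ G, P ≤ i) ∧ ∃ i ∈ G, i < P').card := by
  classical
  set a : ℕ → ℝ := fun i => c i (y - x0) with ha
  -- the decomposition
  set F' := F.filter fun i => ¬ i < Q with hF'
  set B := F'.filter fun i => ε ≤ |a i| with hB
  set D := F'.filter fun i => ¬ ε ≤ |a i| with hD
  set D1 := D.filter fun i => ∃ G ∈ 𝒢, i ∈ G ∧ ∃ i' ∈ G, i' < P with hD1
  set D' := D.filter fun i => ¬ ∃ G ∈ 𝒢, i ∈ G ∧ ∃ i' ∈ G, i' < P with hD'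
  set D2 := D'.filter fun i => i < P' with hD2
  set D3 := D'.filter fun i => ¬ i < P' with hD3
  have hsplit : ∑ i ∈ F, a i = ∑ i ∈ F.filter (fun i => i < Q), a i + (∑ i ∈ B, a i +
      (∑ i ∈ D1, a i + (∑ i ∈ D2, a i + ∑ i ∈ D3, a i))) := by
    rw [hD2, hD3, Finset.sum_filter_add_sum_filter_not, hD1, hD',
      Finset.sum_filter_add_sum_filter_not, hB, hD,
      Finset.sum_filter_add_sum_filter_not, hF', Finset.sum_filter_add_sum_filter_not]
  have hF'F : F' ⊆ F := Finset.filter_subset _ _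
  have hBF' : B ⊆ F' := Finset.filter_subset _ _
  have hDF' : D ⊆ F' := Finset.filter_subset _ _
  have hD1D : D1 ⊆ D := Finset.filter_subset _ _
  have hD'D : D' ⊆ D := Finset.filter_subset _ _
  have hD2D' : D2 ⊆ D' := Finset.filter_subset _ _
  have hD3D' : D3 ⊆ D' := Finset.filter_subset _ _
  have hgeQ : ∀ i ∈ F', Q ≤ i := by
    intro i hi
    rw [hF', Finset.mem_filter] at hi
    omega
  -- head
  have e1 : |∑ i ∈ F.filter (fun i => i < Q), a i| ≤ δ := by
    refine (Finset.abs_sum_le_sum_abs _ _).trans (le_trans ?_ hhead)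
    apply Finset.sum_le_sum_of_subset_of_nonneg
    · intro i hi
      rw [Finset.mem_filter] at hi
      exact Finset.mem_range.mpr hi.2
    · intro i _ _
      exact abs_nonneg _
  -- the big coordinates
  have hcardB : B.card ≤ Q := by
    have h1 : ∑ i ∈ B, |a i| ≤ 2 * (2 / θ) := by
      apply sum_abs_le
      intro F'' hF''
      have h2 := hlow2 (y - x0) F'' (hF.mono (hF''.trans (hBF'.trans hF'F)))
      rw [le_div_iff₀ h0, mul_comm]
      exact h2.trans hz
    have h2 : B.card * ε ≤ ∑ i ∈ B, |a i| := by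
      rw [← nsmul_eq_mul]
      apply Finset.card_nsmul_le_sum
      intro i hi
      rw [hB, Finset.mem_filter] at hi
      exact hi.2
    have h3 : (B.card : ℝ) * ε ≤ 4 / θ := by
      refine (h2.trans h1).trans (le_of_eq ?_)
      ring
    rw [le_div_iff₀ h0] at h3
    have h4 : (B.card : ℝ) * (θ * ε) ≤ Q * (θ * ε) := by nlinarith
    have h5 : (B.card : ℝ) ≤ Q := le_of_mul_le_mul_right h4 (by positivity)
    exact_mod_cast h5
  have e2 : |∑ i ∈ B, a i| ≤ 1 + δ := by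
    have hBS1 : S1 B := fun i hi => hcardB.trans (hgeQ i (hBF' hi))
    have h1 : ∑ i ∈ B, a i = ∑ i ∈ B, c i y - ∑ i ∈ B, c i x0 := by
      rw [← Finset.sum_sub_distrib]
      apply Finset.sum_congr rfl
      intro i _
      exact map_sub _ _ _
    have h2 := hlow1 y B hBS1
    have h3 := htailx B hBS1.s2 fun i hi => hgeQ i (hBF' hi)
    rw [h1]
    have h4 := abs_sub (∑ i ∈ B, c i y) (∑ i ∈ B, c i x0)
    linarith
  -- the small coordinates covered by sets that start early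
  have e3 : |∑ i ∈ D1, a i| ≤ δ := by
    have hcard : D1.card ≤ P * P := by
      have h1 : D1 ⊆ (𝒢.filter fun G => ∃ i' ∈ G, i' < P).biUnion id := by
        intro i hi
        rw [hD1, Finset.mem_filter] at hi
        obtain ⟨-, G, hG, hiG, h2⟩ := hi
        simp only [Finset.mem_biUnion, Finset.mem_filter, id]
        exact ⟨G, ⟨hG, h2⟩, hiG⟩
      have h2 : ((𝒢.filter fun G => ∃ i' ∈ G, i' < P).biUnion id).card ≤
          (𝒢.filter fun G => ∃ i' ∈ G, i' < P).card * P := by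
        apply Finset.card_biUnion_le_card_mul
        intro G hG
        rw [Finset.mem_filter] at hG
        obtain ⟨hG, i', hi', hi'P⟩ := hG
        exact (hG1 G hG i' hi').trans hi'P.le
      have h3 : (𝒢.filter fun G => ∃ i' ∈ G, i' < P).card ≤ P :=
        (Finset.card_filter_le _ _).trans hG3
      exact (Finset.card_le_card h1).trans (h2.trans (Nat.mul_le_mul_right P h3))
    refine (Finset.abs_sum_le_sum_abs _ _).trans ?_
    have h1 : ∑ i ∈ D1, |a i| ≤ D1.card • ε := by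
      apply Finset.sum_le_card_nsmul
      intro i hi
      have := hD1D hi
      rw [hD, Finset.mem_filter] at this
      exact (not_le.mp this.2).le
    rw [nsmul_eq_mul] at h1
    have h2 : (D1.card : ℝ) ≤ P * P := by exact_mod_cast hcard
    nlinarith
  -- the middle
  have e4 : |∑ i ∈ D2, a i| ≤
      4 * (𝒢.filter fun G => (∀ i ∈ G, P ≤ i) ∧ ∃ i ∈ G, i < P').card := by
    refine (Finset.abs_sum_le_sum_abs _ _).trans ?_
    rw [mul_comm]
    apply sum_cover (u := fun i => |a i|) (fun i => abs_nonneg _)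
    · intro G hG
      rw [Finset.mem_filter] at hG
      have h1 : ∑ i ∈ G, |a i| ≤ 2 * 2 := by
        apply sum_abs_le
        intro G' hG'
        exact (hlow1 (y - x0) G' ((hG1 G hG.1).mono hG')).trans hz
      exact h1.trans (by norm_num)
    · intro i hi
      have h1 : i ∈ F := hF'F (hDF' (hD'D (hD2D' hi)))
      have h2 := hG2 h1
      simp only [Finset.mem_biUnion, id] at h2
      obtain ⟨G, hG, hiG⟩ := h2
      rw [hD2, Finset.mem_filter] at hi
      obtain ⟨hi1, hi2⟩ := hi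
      rw [hD', Finset.mem_filter] at hi1
      simp only [Finset.mem_biUnion, Finset.mem_filter, id]
      refine ⟨G, ⟨hG, ?_, i, hiG, hi2⟩, hiG⟩
      intro i' hi'
      by_contra hcon
      exact hi1.2 ⟨G, hG, hiG, i', hi', not_le.mp hcon⟩
  -- the tail
  have e5 : |∑ i ∈ D3, a i| ≤ δ := by
    apply htail
    · exact hF.mono (hD3D'.trans (hD'D.trans (hDF'.trans hF'F)))
    · intro i hi
      rw [hD3, Finset.mem_filter] at hi
      omega
  rw [hsplit]
  have t1 := abs_add_le (∑ i ∈ F.filter (fun i => i < Q), a i) (∑ i ∈ B, a i +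
      (∑ i ∈ D1, a i + (∑ i ∈ D2, a i + ∑ i ∈ D3, a i)))
  have t2 := abs_add_le (∑ i ∈ B, a i) (∑ i ∈ D1, a i + (∑ i ∈ D2, a i + ∑ i ∈ D3, a i))
  have t3 := abs_add_le (∑ i ∈ D1, a i) (∑ i ∈ D2, a i + ∑ i ∈ D3, a i)
  have t4 := abs_add_le (∑ i ∈ D2, a i) (∑ i ∈ D3, a i)
  linarith

theorem s1_est
    (hlow1 : ∀ (z : X) (F : Finset ℕ), S1 F → |∑ i ∈ F, c i z| ≤ ‖z‖)
    {z : X} {P Q P' : ℕ} {δ : ℝ} {F : Finset ℕ} (hF : S1 F) (hPQ : P ≤ Q)
    (hhead : ∑ i ∈ Finset.range Q, |c i z| ≤ δ)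
    (htail : ∀ F' : Finset ℕ, S2 F' → (∀ i ∈ F', P' ≤ i) → |∑ i ∈ F', c i z| ≤ δ)
    (hz : ‖z‖ ≤ 2) :
    |∑ i ∈ F, c i z| ≤ 2 * δ + 2 * (F.filter fun i => P ≤ i ∧ i < P').card := by
  classical
  set a : ℕ → ℝ := fun i => c i z with ha
  set F' := F.filter fun i => ¬ i < Q with hF'
  set D2 := F'.filter fun i => i < P' with hD2
  set D3 := F'.filter fun i => ¬ i < P' with hD3
  have hsplit : ∑ i ∈ F, a i = ∑ i ∈ F.filter (fun i => i < Q), a i +
      (∑ i ∈ D2, a i + ∑ i ∈ D3, a i) := by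
    rw [hD2, hD3, Finset.sum_filter_add_sum_filter_not, hF', Finset.sum_filter_add_sum_filter_not]
  have hF'F : F' ⊆ F := Finset.filter_subset _ _
  have hD2F' : D2 ⊆ F' := Finset.filter_subset _ _
  have hD3F' : D3 ⊆ F' := Finset.filter_subset _ _
  have e1 : |∑ i ∈ F.filter (fun i => i < Q), a i| ≤ δ := by
    refine (Finset.abs_sum_le_sum_abs _ _).trans (le_trans ?_ hhead)
    apply Finset.sum_le_sum_of_subset_of_nonneg
    · intro i hi
      rw [Finset.mem_filter] at hi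
      exact Finset.mem_range.mpr hi.2
    · intro i _ _
      exact abs_nonneg _
  have e5 : |∑ i ∈ D3, a i| ≤ δ := by
    apply htail
    · exact (hF.mono (hD3F'.trans hF'F)).s2
    · intro i hi
      rw [hD3, Finset.mem_filter] at hi
      omega
  have e4 : |∑ i ∈ D2, a i| ≤ 2 * (F.filter fun i => P ≤ i ∧ i < P').card := by
    refine (Finset.abs_sum_le_sum_abs _ _).trans ?_
    have h1 : ∑ i ∈ D2, |a i| ≤ D2.card • (2 : ℝ) := by
      apply Finset.sum_le_card_nsmul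
      intro i hi
      have hi' : S1 {i} := hF.mono (Finset.singleton_subset_iff.mpr (hF'F (hD2F' hi)))
      have h2 := hlow1 z {i} hi'
      rw [Finset.sum_singleton] at h2
      exact h2.trans hz
    have h3 : D2 ⊆ F.filter fun i => P ≤ i ∧ i < P' := by
      intro i hi
      rw [hD2, Finset.mem_filter, hF', Finset.mem_filter] at hi
      rw [Finset.mem_filter]
      exact ⟨hi.1.1, by omega, hi.2⟩
    have h4 : (D2.card : ℝ) ≤ (F.filter fun i => P ≤ i ∧ i < P').card := by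
      exact_mod_cast Finset.card_le_card h3
    rw [nsmul_eq_mul] at h1
    linarith
  rw [hsplit]
  have t1 := abs_add_le (∑ i ∈ F.filter (fun i => i < Q), a i) (∑ i ∈ D2, a i + ∑ i ∈ D3, a i)
  have t4 := abs_add_le (∑ i ∈ D2, a i) (∑ i ∈ D3, a i)
  linarith

/-- Disjointness bound for the numbers of sets starting in the various intervals. -/
theorem sum_card_le {P : ℕ → ℕ} (hP : StrictMono P) (𝒢 : Finset (Finset ℕ)) (K : ℕ) :
    ∑ j ∈ Finset.range K,
      (𝒢.filter fun G => (∀ i ∈ G, P j ≤ i) ∧ ∃ i ∈ G, i < P (j + 1)).card ≤ 𝒢.card := by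
  classical
  rw [← Finset.card_biUnion]
  · apply Finset.card_le_card
    intro G hG
    rw [Finset.mem_biUnion] at hG
    obtain ⟨j, -, hG⟩ := hG
    exact (Finset.mem_filter.mp hG).1
  · have key : ∀ j j' : ℕ, j < j' →
        Disjoint (𝒢.filter fun G => (∀ i ∈ G, P j ≤ i) ∧ ∃ i ∈ G, i < P (j + 1))
        (𝒢.filter fun G => (∀ i ∈ G, P j' ≤ i) ∧ ∃ i ∈ G, i < P (j' + 1)) := by
      intro j j' hjj'
      rw [Finset.disjoint_left]
      intro G hG hG'
      rw [Finset.mem_filter] at hG hG'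
      obtain ⟨-, -, i, hi, hi1⟩ := hG
      have h1 := hG'.2.1 i hi
      have h2 : P (j + 1) ≤ P j' := hP.monotone hjj'
      omega
    intro j _ j' _ hjj'
    rcases Nat.lt_or_gt_of_ne hjj' with h | h
    · exact key j j' h
    · exact (key j' j h).symm

theorem sum_card_le' {P : ℕ → ℕ} (hP : StrictMono P) (F : Finset ℕ) (K : ℕ) :
    ∑ j ∈ Finset.range K, (F.filter fun i => P j ≤ i ∧ i < P (j + 1)).card ≤ F.card := by
  classical
  rw [← Finset.card_biUnion]
  · apply Finset.card_le_card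
    intro G hG
    rw [Finset.mem_biUnion] at hG
    obtain ⟨j, -, hG⟩ := hG
    exact (Finset.mem_filter.mp hG).1
  · have key : ∀ j j' : ℕ, j < j' →
        Disjoint (F.filter fun i => P j ≤ i ∧ i < P (j + 1))
        (F.filter fun i => P j' ≤ i ∧ i < P (j' + 1)) := by
      intro j j' hjj'
      rw [Finset.disjoint_left]
      intro G hG hG'
      rw [Finset.mem_filter] at hG hG'
      have h2 : P (j + 1) ≤ P j' := hP.monotone hjj'
      omega
    intro j _ j' _ hjj'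
    rcases Nat.lt_or_gt_of_ne hjj' with h | h
    · exact key j j' h
    · exact (key j' j h).symm

end

end Pool.Agent.Lib_MP_a61181_an
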