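import Pool.Agent.Lib_MP_a61181_an.Upper

/-!
# The lower bound and the value of the quantity
-/

open Filter Topology

namespace Pool.Agent.Lib_MP_a61181_an

section

variable {X : Type} [NormedAddCommGroup X] [NormedSpace ℝ X] {θ : ℝ}
  {c : ℕ → X →L[ℝ] ℝ} {e : ℕ → X}

/-- The set used for the lower bound. -/
def lowSet (M : ℕ → ℕ) (n : ℕ) : Finset ℕ :=
  (Finset.Ico (n + 1) (2 * n + 2)).biUnion fun j =>
    (Finset.Ico (kk M j) (kk M (j + 1))).image M

theorem lowSet_s2 {M : ℕ → ℕ} (hM : StrictMono M) (hM0 : 0 < M 0) (n : ℕ) : S2 (lowSet M n) := by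
  classical
  refine ⟨(Finset.Ico (n + 1) (2 * n + 2)).image fun j =>
    (Finset.Ico (kk M j) (kk M (j + 1))).image M, ?_, ?_, ?_⟩
  · intro G hG
    rw [Finset.mem_image] at hG
    obtain ⟨j, -, rfl⟩ := hG
    intro i hi
    rw [Finset.mem_image] at hi
    obtain ⟨l, hl, rfl⟩ := hi
    rw [Finset.mem_Ico] at hl
    refine Finset.card_image_le.trans ?_
    rw [Nat.card_Ico]
    have h1 : kk M (j + 1) - kk M j = M (kk M j) := by
      show kk M j + M (kk M j) - kk M j = _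
      omega
    rw [h1]
    exact hM.monotone hl.1
  · intro i hi
    unfold lowSet at hi
    rw [Finset.mem_biUnion] at hi
    obtain ⟨j, hj, hi⟩ := hi
    simp only [Finset.mem_biUnion, id]
    exact ⟨_, Finset.mem_image_of_mem _ hj, hi⟩
  · intro i hi
    unfold lowSet at hi
    rw [Finset.mem_biUnion] at hi
    obtain ⟨j, hj, hi⟩ := hi
    rw [Finset.mem_image] at hi
    obtain ⟨l, hl, rfl⟩ := hi
    rw [Finset.mem_Ico] at hl hj
    refine Finset.card_image_le.trans ?_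
    rw [Nat.card_Ico]
    have h1 := M_ge hM hM0 l
    have h2 := kk_ge hM hM0 j
    omega

theorem lower_aux (h0 : 0 < θ)
    (hlow2 : ∀ (z : X) (F : Finset ℕ), S2 F → θ * |∑ i ∈ F, c i z| ≤ ‖z‖)
    (he : ∀ n i : ℕ, 1 ≤ i → c i (e n) = if i = n then 1 else 0)
    {M : ℕ → ℕ} (hM : StrictMono M) (hM0 : 0 < M 0) (n : ℕ) :
    θ / 2 ≤ ‖(((2 * n + 1 : ℕ) : ℝ) + 1)⁻¹ •
        ∑ i ∈ Finset.range (2 * n + 1 + 1), dot (repAvg 1 M i) e -
      ((n : ℝ) + 1)⁻¹ • ∑ i ∈ Finset.range (n + 1), dot (repAvg 1 M i) e‖ := by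
  classical
  have hS2 := lowSet_s2 hM hM0 n
  let φ : X →L[ℝ] ℝ := ∑ i ∈ lowSet M n, c i
  have hφ : ∀ z, φ z = ∑ i ∈ lowSet M n, c i z := by
    intro z
    simp [φ]
  clear_value φ
  have hφe : ∀ m, φ (e m) = if m ∈ lowSet M n then 1 else 0 := by
    intro m
    rw [hφ, Finset.sum_congr rfl fun i hi => he m i (hS2.pos hi), Finset.sum_ite_eq']
  have hφin : ∀ j, n + 1 ≤ j → j < 2 * n + 2 → φ (dot (repAvg 1 M j) e) = 1 := by
    intro j hj1 hj2
    rw [dot_repAvg, map_smul, map_sum]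
    have h1 : ∀ i ∈ Finset.range (M (kk M j)), φ (e (M (kk M j + i))) = 1 := by
      intro i hi
      rw [hφe, if_pos]
      unfold lowSet
      rw [Finset.mem_biUnion]
      refine ⟨j, Finset.mem_Ico.mpr ⟨hj1, hj2⟩, Finset.mem_image_of_mem _ ?_⟩
      rw [Finset.mem_Ico]
      rw [Finset.mem_range] at hi
      refine ⟨by omega, ?_⟩
      show _ < kk M j + M (kk M j)
      omega
    rw [Finset.sum_congr rfl h1, Finset.sum_const, Finset.card_range, nsmul_eq_mul, mul_one,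
      smul_eq_mul, inv_mul_cancel₀]
    have := M_ge hM hM0 (kk M j)
    have h4 : 0 < M (kk M j) := by omega
    positivity
  have hφout : ∀ j, j < n + 1 → φ (dot (repAvg 1 M j) e) = 0 := by
    intro j hj
    rw [dot_repAvg, map_smul, map_sum]
    have h1 : ∀ i ∈ Finset.range (M (kk M j)), φ (e (M (kk M j + i))) = 0 := by
      intro i hi
      rw [hφe, if_neg]
      intro hmem
      unfold lowSet at hmem
      rw [Finset.mem_biUnion] at hmem
      obtain ⟨l, hl, hmem⟩ := hmem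
      rw [Finset.mem_image] at hmem
      obtain ⟨t, ht, hte⟩ := hmem
      have h2 := hM.injective hte
      rw [Finset.mem_Ico] at hl ht
      rw [Finset.mem_range] at hi
      have h3 : kk M (j + 1) ≤ kk M l := (kk_strictMono hM hM0).monotone (by omega)
      have h4 : kk M (j + 1) = kk M j + M (kk M j) := rfl
      omega
    rw [Finset.sum_congr rfl h1, Finset.sum_const_zero, smul_zero]
  have h1 : φ ((((2 * n + 1 : ℕ) : ℝ) + 1)⁻¹ •
        ∑ i ∈ Finset.range (2 * n + 1 + 1), dot (repAvg 1 M i) e -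
      ((n : ℝ) + 1)⁻¹ • ∑ i ∈ Finset.range (n + 1), dot (repAvg 1 M i) e) = 1 / 2 := by
    rw [map_sub, map_smul, map_smul, map_sum, map_sum]
    rw [Finset.sum_congr rfl fun i hi => hφout i (Finset.mem_range.mp hi), Finset.sum_const_zero,
      smul_zero, sub_zero]
    have h2 : 2 * n + 1 + 1 = (n + 1) + (n + 1) := by ring
    rw [h2, Finset.sum_range_add, Finset.sum_congr rfl fun i hi => hφout i (Finset.mem_range.mp hi),
      Finset.sum_const_zero, zero_add]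
    rw [Finset.sum_congr rfl fun i hi => hφin (n + 1 + i) (by omega) (by
      have := Finset.mem_range.mp hi
      omega)]
    rw [Finset.sum_const, Finset.card_range, nsmul_eq_mul, smul_eq_mul]
    push_cast
    field_simp
    ring
  have h2 := hlow2 ((((2 * n + 1 : ℕ) : ℝ) + 1)⁻¹ •
        ∑ i ∈ Finset.range (2 * n + 1 + 1), dot (repAvg 1 M i) e -
      ((n : ℝ) + 1)⁻¹ • ∑ i ∈ Finset.range (n + 1), dot (repAvg 1 M i) e) _ hS2
  rw [← hφ, h1, abs_of_pos (by norm_num : (0 : ℝ) < 1 / 2)] at h2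
  linarith

theorem norm_avg_le (x : ℕ → X) (hx : ∀ k, ‖x k‖ ≤ 1) (N : ℕ) :
    ‖((N : ℝ) + 1)⁻¹ • ∑ i ∈ Finset.range (N + 1), x i‖ ≤ 1 := by
  rw [norm_smul, Real.norm_eq_abs, abs_of_nonneg (by positivity), inv_mul_le_iff₀ (by positivity)]
  refine (norm_sum_le _ _).trans ((Finset.sum_le_sum fun i _ => hx i).trans (le_of_eq ?_))
  simp

theorem norm_dot_le {M : ℕ → ℕ} (hM : StrictMono M) (hM0 : 0 < M 0) (x : ℕ → X)
    (hx : ∀ k, ‖x k‖ ≤ 1) (n : ℕ) : ‖dot (repAvg 1 M n) x‖ ≤ 1 := by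
  have h1 := M_ge hM hM0 (kk M n)
  have h4 : 0 < M (kk M n) := by omega
  have h5 : (0 : ℝ) < M (kk M n) := by exact_mod_cast h4
  rw [dot_repAvg, norm_smul, Real.norm_eq_abs, abs_of_nonneg (by positivity), inv_mul_le_iff₀ h5]
  refine (norm_sum_le _ _).trans ((Finset.sum_le_sum fun i _ => hx _).trans (le_of_eq ?_))
  simp

theorem ca_le (y : ℕ → X) (C D : ℝ) (hC : 0 ≤ C) (hD : 0 ≤ D)
    (h : ∀ n k l : ℕ, n ≤ k → n ≤ l → ‖y k - y l‖ ≤ C + D / ((n : ℝ) + 1)) : ca y ≤ C := by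
  have hbdd : BddBelow (Set.range fun n =>
      sSup {t : ℝ | ∃ k l, n ≤ k ∧ n ≤ l ∧ t = ‖y k - y l‖}) := by
    refine ⟨0, ?_⟩
    rintro _ ⟨n, rfl⟩
    apply Real.sSup_nonneg
    rintro t ⟨k, l, -, -, rfl⟩
    exact norm_nonneg _
  have h1 : ∀ n : ℕ, ca y ≤ C + D / ((n : ℝ) + 1) := by
    intro n
    refine (csInf_le hbdd ⟨n, rfl⟩).trans ?_
    apply Real.sSup_le
    · rintro t ⟨k, l, hk, hl, rfl⟩
      exact h n k l hk hl
    · positivity
  apply le_of_forall_pos_le_add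
  intro ε hε
  obtain ⟨n, hn⟩ := exists_nat_gt (D / ε)
  refine (h1 n).trans ?_
  have h2 : D / ((n : ℝ) + 1) ≤ ε := by
    rw [div_lt_iff₀ hε] at hn
    rw [div_le_iff₀ (by positivity)]
    nlinarith
  linarith

theorem ca_nonneg (y : ℕ → X) : 0 ≤ ca y := by
  apply Real.sInf_nonneg
  rintro _ ⟨n, rfl⟩
  apply Real.sSup_nonneg
  rintro t ⟨k, l, -, -, rfl⟩
  exact norm_nonneg _

theorem le_ca (y : ℕ → X) (C : ℝ) (hy : ∀ k, ‖y k‖ ≤ 1)
    (h : ∀ n : ℕ, ∃ k l : ℕ, n ≤ k ∧ n ≤ l ∧ C ≤ ‖y k - y l‖) : C ≤ ca y := by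
  unfold ca
  apply le_csInf (Set.range_nonempty _)
  rintro _ ⟨n, rfl⟩
  obtain ⟨k, l, hk, hl, hkl⟩ := h n
  refine hkl.trans (le_csSup ?_ ⟨k, l, hk, hl, rfl⟩)
  refine ⟨2, ?_⟩
  rintro t ⟨k, l, -, -, rfl⟩
  have := norm_sub_le (y k) (y l)
  linarith [hy k, hy l]

theorem norm_limit_le (x : ℕ → X) (x0 : X)
    (hw : ∀ f : X →L[ℝ] ℝ, Tendsto (fun k => f (x k)) atTop (𝓝 (f x0)))
    (hx : ∀ k, ‖x k‖ ≤ 1) : ‖x0‖ ≤ 1 := by
  obtain ⟨g, hg1, hg2⟩ := exists_dual_vector'' ℝ x0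
  have h1 := hw g
  rw [hg2] at h1
  refine le_of_tendsto h1 (Eventually.of_forall fun k => ?_)
  have h2 := g.le_opNorm (x k)
  have h3 := le_abs_self (g (x k))
  rw [Real.norm_eq_abs] at h2
  have h4 := hx k
  have h5 := norm_nonneg (x k)
  have h6 := norm_nonneg g
  show g (x k) ≤ 1
  nlinarith

end

/-- For every `θ` in `(0,1)` there is a Banach space whose unit ball has weak Banach-Saks quantity
of order one between `θ/2` and `2θ`. -/
theorem main (θ : ℝ) (h0 : 0 < θ) (h1 : θ < 1) :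
    ∃ (X : Type) (_ : NormedAddCommGroup X) (_ : NormedSpace ℝ X) (_ : CompleteSpace X),
      θ / 2 ≤ wbs 1 (Metric.closedBall (0 : X) 1) ∧ wbs 1 (Metric.closedBall (0 : X) 1) ≤ 2 * θ := by
  obtain ⟨X, i1, i2, i3, c, e, hlow1, hlow2, hup, htl, he⟩ := exists_space θ h0 h1
  refine ⟨X, i1, i2, i3, ?_⟩
  have hupper : ∀ x : ℕ → X, (∀ k, x k ∈ Metric.closedBall (0 : X) 1) → WeaklyConvergent x →
      ccaTilde 1 x ≤ 2 * θ := by
    intro x hx hw
    obtain ⟨x0, hw⟩ := hw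
    have hx1 : ∀ k, ‖x k‖ ≤ 1 := fun k => by
      have := hx k
      rwa [mem_closedBall_zero_iff] at this
    have hx0 := norm_limit_le x x0 hw hx1
    have hz : ∀ k, ‖x k - x0‖ ≤ 2 := fun k => by
      have := norm_sub_le (x k) x0
      linarith [hx1 k]
    obtain ⟨M, hM, hM0, hA⟩ := upper_aux h0 h1 hlow1 hlow2 hup htl x x0 hw hx1 hz
    have h2 : ccaTilde 1 x ≤ cca fun n => dot (repAvg 1 M n) x := by
      apply csInf_le
      · refine ⟨0, ?_⟩
        rintro t ⟨M, -, -, rfl⟩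
        exact ca_nonneg _
      · exact ⟨M, hM, hM0, rfl⟩
    refine h2.trans ?_
    apply ca_le _ _ 28 (by positivity) (by norm_num)
    intro n k l hk hl
    dsimp only
    have h3 := hA k
    have h4 := hA l
    have h5 : ((k : ℝ) + 1)⁻¹ • ∑ i ∈ Finset.range (k + 1), dot (repAvg 1 M i) x -
        ((l : ℝ) + 1)⁻¹ • ∑ i ∈ Finset.range (l + 1), dot (repAvg 1 M i) x =
        (((k : ℝ) + 1)⁻¹ • ∑ i ∈ Finset.range (k + 1), dot (repAvg 1 M i) x - x0) -
        (((l : ℝ) + 1)⁻¹ • ∑ i ∈ Finset.range (l + 1), dot (repAvg 1 M i) x - x0) := by abel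
    rw [h5]
    refine (norm_sub_le _ _).trans ?_
    have h6 : 14 / ((k : ℝ) + 1) ≤ 14 / ((n : ℝ) + 1) := by
      have : (n : ℝ) ≤ k := by exact_mod_cast hk
      gcongr
    have h7 : 14 / ((l : ℝ) + 1) ≤ 14 / ((n : ℝ) + 1) := by
      have : (n : ℝ) ≤ l := by exact_mod_cast hl
      gcongr
    have h8 : 28 / ((n : ℝ) + 1) = 14 / ((n : ℝ) + 1) + 14 / ((n : ℝ) + 1) := by ring
    linarith
  constructor
  · have h2 : ccaTilde 1 e ≤ wbs 1 (Metric.closedBall (0 : X) 1) := by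
      apply le_csSup
      · refine ⟨2 * θ, ?_⟩
        rintro t ⟨x, hx, hw, rfl⟩
        exact hupper x hx hw
      · refine ⟨e, fun k => ?_, ⟨0, fun f => ?_⟩, rfl⟩
        · rw [mem_closedBall_zero_iff]
          exact norm_e_le h0 h1 hup he k
        · rw [map_zero]
          exact weakly_null h0 h1 hup he f
    refine le_trans ?_ h2
    apply le_csInf
    · exact ⟨_, fun n => n + 1, fun a b hab => Nat.succ_lt_succ hab, Nat.succ_pos 0, rfl⟩
    · rintro t ⟨M, hM, hM0, rfl⟩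
      apply le_ca
      · exact norm_avg_le _ (norm_dot_le hM hM0 e (norm_e_le h0 h1 hup he))
      · intro n
        exact ⟨2 * n + 1, n, by omega, le_rfl, lower_aux h0 hlow2 he hM hM0 n⟩
  · apply Real.sSup_le
    · rintro t ⟨x, hx, hw, rfl⟩
      exact hupper x hx hw
    · positivity

end Pool.Agent.Lib_MP_a61181_an
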