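import Pool.Agent.Lib_MP_a61181_an.Space

/-!
# The unit vectors are weakly null
-/

open Filter Topology

namespace Pool.Agent.Lib_MP_a61181_an

theorem sum_cover {u : ℕ → ℝ} (hu : ∀ i, 0 ≤ u i) {ε : ℝ} (𝒢 : Finset (Finset ℕ))
    (h : ∀ G ∈ 𝒢, ∑ i ∈ G, u i ≤ ε) {F : Finset ℕ} (hF : F ⊆ 𝒢.biUnion id) :
    ∑ i ∈ F, u i ≤ 𝒢.card * ε := by
  have h1 : ∑ i ∈ F, u i ≤ ∑ i ∈ 𝒢.biUnion id, u i :=
    Finset.sum_le_sum_of_subset_of_nonneg hF fun i _ _ => hu i
  refine h1.trans ?_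
  clear h1 hF
  induction 𝒢 using Finset.induction_on with
  | empty => simp
  | insert G 𝒢 hG ih =>
    rw [Finset.biUnion_insert, Finset.card_insert_of_notMem hG]
    have h2 := ih fun G' hG' => h G' (Finset.mem_insert_of_mem hG')
    have h3 := h G (Finset.mem_insert_self _ _)
    have h4 : ∑ i ∈ id G ∪ 𝒢.biUnion id, u i ≤ ∑ i ∈ G, u i + ∑ i ∈ 𝒢.biUnion id, u i := by
      have h5 := Finset.sum_union_inter (f := u) (s₁ := G) (s₂ := 𝒢.biUnion id)
      have h6 : 0 ≤ ∑ i ∈ G ∩ 𝒢.biUnion id, u i := Finset.sum_nonneg fun i _ => hu i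
      simp only [id]
      linarith
    push_cast
    linarith

/-- There are convex combinations with small sums over the family. -/
def HasSmall (fam : Finset ℕ → Prop) : Prop :=
  ∀ (L : Set ℕ), L.Infinite → ∀ (p : ℕ) (ε : ℝ), 0 < ε → ∃ (T : Finset ℕ) (u : ℕ → ℝ),
    (∀ i, 0 ≤ u i) ∧ (∀ i, i ∉ T → u i = 0) ∧ (∀ i ∈ T, i ∈ L ∧ p ≤ i) ∧
    ∑ i ∈ T, u i = 1 ∧ ∀ F, fam F → ∑ i ∈ F, u i ≤ ε

theorem hasSmall_zero : HasSmall fun F => F.card ≤ 1 := by
  intro L hL p ε hε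
  obtain ⟨n, hn⟩ := exists_nat_gt (1 / ε)
  have hn0 : (0 : ℝ) < n := lt_trans (by positivity) hn
  have hL' : (L \ Set.Iio p).Infinite := hL.diff (Set.finite_Iio p)
  obtain ⟨T, hT, hTc⟩ := hL'.exists_subset_card_eq n
  refine ⟨T, fun i => if i ∈ T then (n : ℝ)⁻¹ else 0, ?_, ?_, ?_, ?_, ?_⟩
  · intro i
    dsimp only
    split_ifs
    · positivity
    · exact le_rfl
  · intro i hi
    simp [hi]
  · intro i hi
    have := hT (Finset.mem_coe.mpr hi)
    simp only [Set.mem_diff, Set.mem_Iio, not_lt] at this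
    exact this
  · rw [Finset.sum_ite_mem, Finset.inter_self, Finset.sum_const, hTc, nsmul_eq_mul]
    field_simp
  · intro F hF
    rw [Finset.sum_ite_mem, Finset.sum_const, nsmul_eq_mul]
    have h1 : ((F ∩ T).card : ℝ) ≤ 1 := by
      exact_mod_cast (Finset.card_le_card Finset.inter_subset_left).trans hF
    have h2 : (n : ℝ)⁻¹ ≤ ε := by
      rw [inv_le_comm₀ hn0 hε, ← one_div]
      exact hn.le
    calc ((F ∩ T).card : ℝ) * (n : ℝ)⁻¹ ≤ 1 * (n : ℝ)⁻¹ :=
          mul_le_mul_of_nonneg_right h1 (by positivity)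
      _ ≤ ε := by linarith

theorem HasSmall.next_aux {fam : Finset ℕ → Prop} (h : HasSmall fam) (L : Set ℕ) (hL : L.Infinite)
    (N : ℝ) (hN : 0 < N) (m : ℕ) : ∀ p K : ℕ, ∃ (T : Finset ℕ) (u : ℕ → ℝ),
    (∀ i, 0 ≤ u i) ∧ (∀ i, i ∉ T → u i = 0) ∧ (∀ i ∈ T, i ∈ L ∧ p ≤ i) ∧
    ∑ i ∈ T, u i = m ∧ (∀ F, Next fam F → ∑ i ∈ F, u i ≤ 1 + m / N) ∧
    (∀ (F : Finset ℕ) (𝒢 : Finset (Finset ℕ)), (∀ G ∈ 𝒢, fam G) → F ⊆ 𝒢.biUnion id →
      𝒢.card ≤ K → ∑ i ∈ F, u i ≤ m / N) := by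
  induction m with
  | zero =>
    intro p K
    refine ⟨∅, fun _ => 0, by simp, by simp, by simp, by simp, ?_, ?_⟩
    · intro F _
      simp
    · intro F 𝒢 _ _ _
      simp
  | succ m ih =>
    intro p K
    obtain ⟨T, y, hy0, hyT, hTL, hy1, hyF⟩ := h L hL p (1 / (N * (K + 1))) (by positivity)
    obtain ⟨T', u, hu0, huT, hTL', hu1, huF, huK⟩ := ih (max p (T.sup id + 1)) (max K (T.sup id))
    have hdisj : Disjoint T T' := by
      rw [Finset.disjoint_left]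
      intro i hi hi'
      have h1 : i ≤ T.sup id := Finset.le_sup (f := id) hi
      have h2 := (hTL' i hi').2
      have h3 := (le_max_right p (T.sup id + 1)).trans h2
      omega
    have hsumy : ∀ F : Finset ℕ, ∑ i ∈ F, y i ≤ 1 := by
      intro F
      have h1 : ∑ i ∈ F, y i = ∑ i ∈ F ∩ T, y i := by
        symm
        apply Finset.sum_subset Finset.inter_subset_left
        intro i hi hi'
        apply hyT
        intro hiT
        exact hi' (Finset.mem_inter.mpr ⟨hi, hiT⟩)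
      rw [h1, ← hy1]
      exact Finset.sum_le_sum_of_subset_of_nonneg Finset.inter_subset_right fun i _ _ => hy0 i
    have hKy : ∀ (F : Finset ℕ) (𝒢 : Finset (Finset ℕ)), (∀ G ∈ 𝒢, fam G) → F ⊆ 𝒢.biUnion id →
      𝒢.card ≤ K → ∑ i ∈ F, y i ≤ 1 / N := by
      intro F 𝒢 h1 h2 h3
      have h4 := sum_cover hy0 𝒢 (fun G hG => hyF G (h1 G hG)) h2
      refine h4.trans ?_
      have h5 : (𝒢.card : ℝ) ≤ K := by exact_mod_cast h3
      rw [mul_one_div, div_le_div_iff₀ (by positivity) hN]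
      nlinarith
    refine ⟨T ∪ T', fun i => y i + u i, fun i => add_nonneg (hy0 i) (hu0 i), ?_, ?_, ?_, ?_, ?_⟩
    · intro i hi
      rw [Finset.mem_union, not_or] at hi
      simp [hyT i hi.1, huT i hi.2]
    · intro i hi
      rw [Finset.mem_union] at hi
      rcases hi with hi | hi
      · exact hTL i hi
      · exact ⟨(hTL' i hi).1, (le_max_left _ _).trans (hTL' i hi).2⟩
    · rw [Finset.sum_union hdisj, Finset.sum_add_distrib, Finset.sum_add_distrib, hy1, hu1]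
      have h1 : ∑ i ∈ T, u i = 0 := Finset.sum_eq_zero fun i hi =>
        huT i (Finset.disjoint_left.mp hdisj hi)
      have h2 : ∑ i ∈ T', y i = 0 := Finset.sum_eq_zero fun i hi =>
        hyT i (Finset.disjoint_right.mp hdisj hi)
      rw [h1, h2]
      push_cast
      ring
    · intro F hF
      rw [Finset.sum_add_distrib]
      by_cases hFT : ∃ i ∈ F, i ∈ T
      · obtain ⟨i, hiF, hiT⟩ := hFT
        obtain ⟨𝒢, hG1, hG2, hG3⟩ := hF
        have h1 : i ≤ T.sup id := Finset.le_sup (f := id) hiT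
        have h2 := huK F 𝒢 hG1 hG2 (((hG3 i hiF).trans h1).trans (le_max_right _ _))
        have h3 := hsumy F
        have h4 : ((m + 1 : ℕ) : ℝ) / N = m / N + 1 / N := by
          push_cast
          ring
        have h5 : 0 < 1 / N := by positivity
        rw [h4]
        linarith
      · push Not at hFT
        have h1 : ∑ i ∈ F, y i = 0 := Finset.sum_eq_zero fun i hi => hyT i (hFT i hi)
        have h2 := huF F hF
        have h4 : ((m + 1 : ℕ) : ℝ) / N = m / N + 1 / N := by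
          push_cast
          ring
        have h5 : 0 < 1 / N := by positivity
        rw [h1, h4]
        linarith
    · intro F 𝒢 h1 h2 h3
      rw [Finset.sum_add_distrib]
      have h4 := hKy F 𝒢 h1 h2 h3
      have h5 := huK F 𝒢 h1 h2 (h3.trans (le_max_left _ _))
      have h6 : ((m + 1 : ℕ) : ℝ) / N = m / N + 1 / N := by
        push_cast
        ring
      rw [h6]
      linarith

theorem HasSmall.next {fam : Finset ℕ → Prop} (h : HasSmall fam) : HasSmall (Next fam) := by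
  intro L hL p ε hε
  obtain ⟨n, hn⟩ := exists_nat_gt (2 / ε)
  have hn0 : (0 : ℝ) < n := lt_trans (by positivity) hn
  obtain ⟨T, u, hu0, huT, hTL, hu1, huF, -⟩ := h.next_aux L hL n hn0 n p 0
  refine ⟨T, fun i => (n : ℝ)⁻¹ * u i, fun i => mul_nonneg (by positivity) (hu0 i), ?_, hTL, ?_, ?_⟩
  · intro i hi
    simp [huT i hi]
  · rw [← Finset.mul_sum, hu1]
    field_simp
  · intro F hF
    have h1 := huF F hF
    rw [div_self hn0.ne'] at h1
    rw [← Finset.mul_sum]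
    calc (n : ℝ)⁻¹ * ∑ i ∈ F, u i ≤ (n : ℝ)⁻¹ * (1 + 1) :=
          mul_le_mul_of_nonneg_left h1 (by positivity)
      _ ≤ ε := by
        rw [inv_mul_le_iff₀ hn0]
        rw [div_lt_iff₀ hε] at hn
        linarith

theorem HasSmall.mono {fam fam' : Finset ℕ → Prop} (h : HasSmall fam)
    (hf : ∀ F, fam' F → fam F) : HasSmall fam' := by
  intro L hL p ε hε
  obtain ⟨T, u, h1, h2, h3, h4, h5⟩ := h L hL p ε hε
  exact ⟨T, u, h1, h2, h3, h4, fun F hF => h5 F (hf F hF)⟩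

theorem hasSmall_S1 : HasSmall S1 := by
  refine hasSmall_zero.next.mono fun F hF => ?_
  refine ⟨F.image singleton, ?_, ?_, ?_⟩
  · intro G hG
    rw [Finset.mem_image] at hG
    obtain ⟨i, -, rfl⟩ := hG
    simp
  · intro i hi
    simp only [Finset.mem_biUnion, Finset.mem_image, id]
    exact ⟨{i}, ⟨i, hi, rfl⟩, by simp⟩
  · intro i hi
    exact Finset.card_image_le.trans (hF i hi)

theorem hasSmall_S2 : HasSmall S2 := hasSmall_S1.next

section

variable {X : Type} [NormedAddCommGroup X] [NormedSpace ℝ X] {θ : ℝ}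
  {c : ℕ → X →L[ℝ] ℝ} {e : ℕ → X}

theorem finite_of_le (h0 : 0 < θ) (h1 : θ < 1)
    (hup : ∀ (z : X) (C : ℝ), 0 ≤ C → (∀ F : Finset ℕ, S1 F → |∑ i ∈ F, c i z| ≤ C) →
        (∀ F : Finset ℕ, S2 F → θ * |∑ i ∈ F, c i z| ≤ C) → ‖z‖ ≤ C)
    (he : ∀ n i : ℕ, 1 ≤ i → c i (e n) = if i = n then 1 else 0)
    (f : X →L[ℝ] ℝ) (ε : ℝ) (hε : 0 < ε) : {n | ε ≤ f (e n)}.Finite := by
  by_contra hinf
  obtain ⟨T, u, hu0, huT, hTL, hu1, huF⟩ := hasSmall_S2 _ hinf 0 (ε / (2 * (‖f‖ + 1)))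
    (by positivity)
  have hcoord : ∀ i : ℕ, 1 ≤ i → c i (∑ j ∈ T, u j • e j) = u i := by
    intro i hi
    rw [map_sum]
    simp only [map_smul, he _ i hi, smul_eq_mul, mul_ite, mul_one, mul_zero]
    rw [Finset.sum_ite_eq]
    split_ifs with h
    · rfl
    · exact (huT i h).symm
  have hS2 : ∀ F : Finset ℕ, S2 F → |∑ i ∈ F, c i (∑ j ∈ T, u j • e j)| ≤
      ε / (2 * (‖f‖ + 1)) := by
    intro F hF
    rw [Finset.sum_congr rfl fun i hi => hcoord i (hF.pos hi)]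
    rw [abs_of_nonneg (Finset.sum_nonneg fun i _ => hu0 i)]
    exact huF F hF
  have hnorm : ‖∑ j ∈ T, u j • e j‖ ≤ ε / (2 * (‖f‖ + 1)) := by
    apply hup _ _ (by positivity)
    · intro F hF
      exact hS2 F hF.s2
    · intro F hF
      have h2 := hS2 F hF
      have h3 := abs_nonneg (∑ i ∈ F, c i (∑ j ∈ T, u j • e j))
      nlinarith
  have h2 : ε ≤ f (∑ j ∈ T, u j • e j) := by
    rw [map_sum]
    calc ε = ∑ j ∈ T, u j * ε := by rw [← Finset.sum_mul, hu1, one_mul]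
      _ ≤ ∑ j ∈ T, f (u j • e j) := by
        apply Finset.sum_le_sum
        intro j hj
        rw [map_smul, smul_eq_mul]
        exact mul_le_mul_of_nonneg_left (hTL j hj).1 (hu0 j)
  have h3 : f (∑ j ∈ T, u j • e j) ≤ ‖f‖ * (ε / (2 * (‖f‖ + 1))) :=
    (le_abs_self _).trans ((f.le_opNorm _).trans (mul_le_mul_of_nonneg_left hnorm (norm_nonneg _)))
  have h4 : ‖f‖ * (ε / (2 * (‖f‖ + 1))) < ε := by
    rw [mul_div_assoc', div_lt_iff₀ (by positivity)]
    nlinarith [norm_nonneg f]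
  linarith

theorem weakly_null (h0 : 0 < θ) (h1 : θ < 1)
    (hup : ∀ (z : X) (C : ℝ), 0 ≤ C → (∀ F : Finset ℕ, S1 F → |∑ i ∈ F, c i z| ≤ C) →
        (∀ F : Finset ℕ, S2 F → θ * |∑ i ∈ F, c i z| ≤ C) → ‖z‖ ≤ C)
    (he : ∀ n i : ℕ, 1 ≤ i → c i (e n) = if i = n then 1 else 0)
    (f : X →L[ℝ] ℝ) : Tendsto (fun n => f (e n)) atTop (𝓝 0) := by
  rw [Metric.tendsto_atTop]
  intro ε hε
  have h2 := finite_of_le h0 h1 hup he f ε hε
  have h3 := finite_of_le h0 h1 hup he (-f) ε hε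
  obtain ⟨N, hN⟩ := (h2.union h3).bddAbove
  refine ⟨N + 1, fun n hn => ?_⟩
  rw [Real.dist_eq, sub_zero, abs_lt]
  constructor
  · by_contra hcon
    have : n ∈ {n | ε ≤ f (e n)} ∪ {n | ε ≤ (-f) (e n)} := by
      right
      simp only [Set.mem_setOf_eq, ContinuousLinearMap.neg_apply]
      linarith
    have := hN this
    omega
  · by_contra hcon
    have : n ∈ {n | ε ≤ f (e n)} ∪ {n | ε ≤ (-f) (e n)} := by
      left
      simp only [Set.mem_setOf_eq]
      linarith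
    have := hN this
    omega

theorem norm_e_le (h0 : 0 < θ) (h1 : θ < 1)
    (hup : ∀ (z : X) (C : ℝ), 0 ≤ C → (∀ F : Finset ℕ, S1 F → |∑ i ∈ F, c i z| ≤ C) →
        (∀ F : Finset ℕ, S2 F → θ * |∑ i ∈ F, c i z| ≤ C) → ‖z‖ ≤ C)
    (he : ∀ n i : ℕ, 1 ≤ i → c i (e n) = if i = n then 1 else 0) (n : ℕ) : ‖e n‖ ≤ 1 := by
  have hS2 : ∀ F : Finset ℕ, S2 F → |∑ i ∈ F, c i (e n)| ≤ 1 := by
    intro F hF
    rw [Finset.sum_congr rfl fun i hi => he n i (hF.pos hi), Finset.sum_ite_eq']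
    split_ifs <;> simp
  apply hup _ _ zero_le_one
  · intro F hF
    exact hS2 F hF.s2
  · intro F hF
    have h2 := hS2 F hF
    have h3 := abs_nonneg (∑ i ∈ F, c i (e n))
    nlinarith

end

end Pool.Agent.Lib_MP_a61181_an
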