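import Pool.Agent.Lib_MP_a61181_an.Est

/-!
# The upper bound
-/

open Filter Topology

namespace Pool.Agent.Lib_MP_a61181_an

section

variable {X : Type} [NormedAddCommGroup X] [NormedSpace ℝ X] {θ : ℝ}
  {c : ℕ → X →L[ℝ] ℝ}

/-- The inductive choice of a subsequence. -/
theorem exists_subseq (h0 : 0 < θ)
    (htl : ∀ (z : X) (δ : ℝ), 0 < δ → ∃ P : ℕ, ∀ F : Finset ℕ, S2 F → (∀ i ∈ F, P ≤ i) →
        |∑ i ∈ F, c i z| ≤ δ)
    (x : ℕ → X) (x0 : X) (hw : ∀ f : X →L[ℝ] ℝ, Tendsto (fun k => f (x k)) atTop (𝓝 (f x0))) :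
    ∃ (P Q M : ℕ → ℕ), StrictMono P ∧ P 0 = 1 ∧ (∀ j, P j ≤ Q j) ∧
      StrictMono M ∧ (∀ j, P j ≤ M j) ∧
      (∀ j, 4 ≤ θ * ((1 / 2 : ℝ) ^ j / ((P j : ℝ) + 1) ^ 2) * Q j) ∧
      (∀ j, ∑ i ∈ Finset.range (Q j), |c i (x (M j) - x0)| ≤ (1 / 2 : ℝ) ^ j) ∧
      (∀ j, ∀ F' : Finset ℕ, S2 F' → (∀ i ∈ F', Q j ≤ i) →
        |∑ i ∈ F', c i x0| ≤ (1 / 2 : ℝ) ^ j) ∧
      (∀ j, ∀ F' : Finset ℕ, S2 F' → (∀ i ∈ F', P (j + 1) ≤ i) →
        |∑ i ∈ F', c i (x (M j) - x0)| ≤ (1 / 2 : ℝ) ^ j) := by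
  have hQ : ∀ j p : ℕ, ∃ Q : ℕ, p ≤ Q ∧
      4 ≤ θ * ((1 / 2 : ℝ) ^ j / ((p : ℝ) + 1) ^ 2) * Q ∧
      ∀ F' : Finset ℕ, S2 F' → (∀ i ∈ F', Q ≤ i) → |∑ i ∈ F', c i x0| ≤ (1 / 2 : ℝ) ^ j := by
    intro j p
    obtain ⟨Q1, hQ1⟩ := htl x0 ((1 / 2 : ℝ) ^ j) (by positivity)
    have hpos : 0 < θ * ((1 / 2 : ℝ) ^ j / ((p : ℝ) + 1) ^ 2) := by positivity
    obtain ⟨Q2, hQ2⟩ := exists_nat_gt (4 / (θ * ((1 / 2 : ℝ) ^ j / ((p : ℝ) + 1) ^ 2)))
    refine ⟨max p (max Q1 Q2), le_max_left _ _, ?_, ?_⟩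
    · rw [div_lt_iff₀ hpos] at hQ2
      have h1 : (Q2 : ℝ) ≤ ((max p (max Q1 Q2) : ℕ) : ℝ) := by
        exact_mod_cast (le_max_right Q1 Q2).trans (le_max_right p _)
      nlinarith
    · intro F' h1 h2
      exact hQ1 F' h1 fun i hi => ((le_max_left Q1 Q2).trans (le_max_right p _)).trans (h2 i hi)
  have hM : ∀ j q m : ℕ, ∃ M : ℕ, m < M ∧
      ∑ i ∈ Finset.range q, |c i (x M - x0)| ≤ (1 / 2 : ℝ) ^ j := by
    intro j q m
    have h1 : Tendsto (fun k => ∑ i ∈ Finset.range q, |c i (x k - x0)|) atTop (𝓝 0) := by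
      have h2 : Tendsto (fun k => ∑ i ∈ Finset.range q, |c i (x k - x0)|) atTop
          (𝓝 (∑ _i ∈ Finset.range q, (0 : ℝ))) := by
        apply tendsto_finsetSum
        intro i _
        have h3 := ((hw (c i)).sub_const (c i x0)).abs
        simp only [sub_self, abs_zero] at h3
        refine h3.congr fun k => ?_
        rw [map_sub]
      simpa using h2
    have h2 := (h1.eventually (gt_mem_nhds (show (0 : ℝ) < (1 / 2 : ℝ) ^ j by positivity))).and
      (eventually_gt_atTop m)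
    obtain ⟨M, hM1, hM2⟩ := h2.exists
    exact ⟨M, hM2, hM1.le⟩
  have hP : ∀ j m : ℕ, ∃ P : ℕ, ∀ F' : Finset ℕ, S2 F' → (∀ i ∈ F', P ≤ i) →
      |∑ i ∈ F', c i (x m - x0)| ≤ (1 / 2 : ℝ) ^ j := by
    intro j m
    exact htl (x m - x0) _ (by positivity)
  choose Qf hQf1 hQf2 hQf3 using hQ
  choose Mf hMf1 hMf2 using hM
  choose Pf hPf using hP
  let st : ℕ → ℕ × ℕ := fun n => Nat.rec (1, 0) (fun j s =>
    (max (s.1 + 1) (Pf j (Mf j (Qf j s.1) (max s.2 s.1))), Mf j (Qf j s.1) (max s.2 s.1))) n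
  have hst : ∀ j, st (j + 1) = (max ((st j).1 + 1)
    (Pf j (Mf j (Qf j (st j).1) (max (st j).2 (st j).1))),
      Mf j (Qf j (st j).1) (max (st j).2 (st j).1)) := fun j => rfl
  refine ⟨fun j => (st j).1, fun j => Qf j (st j).1,
    fun j => Mf j (Qf j (st j).1) (max (st j).2 (st j).1), ?_, rfl, ?_, ?_, ?_, ?_, ?_, ?_, ?_⟩
  · refine strictMono_nat_of_lt_succ fun j => ?_
    have h1 : (st j).1 + 1 ≤ (st (j + 1)).1 := by
      rw [hst]
      exact le_max_left _ _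
    omega
  · intro j
    exact hQf1 j _
  · refine strictMono_nat_of_lt_succ fun j => ?_
    have h1 := hMf1 (j + 1) (Qf (j + 1) (st (j + 1)).1) (max (st (j + 1)).2 (st (j + 1)).1)
    have h2 : (st (j + 1)).2 = Mf j (Qf j (st j).1) (max (st j).2 (st j).1) := by
      rw [hst]
    rw [← h2]
    exact (le_max_left _ _).trans_lt h1
  · intro j
    exact (le_max_right (st j).2 _).trans (hMf1 _ _ _).le
  · intro j
    exact hQf2 j _
  · intro j
    exact hMf2 _ _ _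
  · intro j
    exact hQf3 j _
  · intro j F' h1 h2
    apply hPf j _ F' h1
    intro i hi
    refine le_trans ?_ (h2 i hi)
    show _ ≤ (st (j + 1)).1
    rw [hst]
    exact le_max_right _ _

theorem exists_interval {P : ℕ → ℕ} (hP : StrictMono P) (hP0 : P 0 = 1) (m : ℕ) (hm : 1 ≤ m) :
    ∃ j, P j ≤ m ∧ m < P (j + 1) := by
  have hex : ∃ j, m < P (j + 1) := ⟨m, lt_of_lt_of_le (Nat.lt_succ_self m) (hP.id_le _)⟩
  classical
  refine ⟨Nat.find hex, ?_, Nat.find_spec hex⟩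
  rcases Nat.eq_zero_or_pos (Nat.find hex) with h | h
  · rw [h, hP0]
    exact hm
  · have h1 := Nat.find_min hex (m := Nat.find hex - 1) (by omega)
    have h2 : Nat.find hex - 1 + 1 = Nat.find hex := by omega
    rw [h2] at h1
    omega

/-- The main estimate for the averages. -/
theorem upper_aux (h0 : 0 < θ) (h1 : θ < 1)
    (hlow1 : ∀ (z : X) (F : Finset ℕ), S1 F → |∑ i ∈ F, c i z| ≤ ‖z‖)
    (hlow2 : ∀ (z : X) (F : Finset ℕ), S2 F → θ * |∑ i ∈ F, c i z| ≤ ‖z‖)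
    (hup : ∀ (z : X) (C : ℝ), 0 ≤ C → (∀ F : Finset ℕ, S1 F → |∑ i ∈ F, c i z| ≤ C) →
        (∀ F : Finset ℕ, S2 F → θ * |∑ i ∈ F, c i z| ≤ C) → ‖z‖ ≤ C)
    (htl : ∀ (z : X) (δ : ℝ), 0 < δ → ∃ P : ℕ, ∀ F : Finset ℕ, S2 F → (∀ i ∈ F, P ≤ i) →
        |∑ i ∈ F, c i z| ≤ δ)
    (x : ℕ → X) (x0 : X) (hw : ∀ f : X →L[ℝ] ℝ, Tendsto (fun k => f (x k)) atTop (𝓝 (f x0)))
    (hx : ∀ k, ‖x k‖ ≤ 1) (hz : ∀ k, ‖x k - x0‖ ≤ 2) :
    ∃ M : ℕ → ℕ, StrictMono M ∧ 0 < M 0 ∧ ∀ N : ℕ,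
      ‖((N : ℝ) + 1)⁻¹ • ∑ n ∈ Finset.range (N + 1), dot (repAvg 1 M n) x - x0‖ ≤
        θ + 14 / ((N : ℝ) + 1) := by
  obtain ⟨P, Q, M, hP, hP0, hPQ, hM, hPM, hQ4, hhead, htailx, htail⟩ := exists_subseq h0 htl x x0 hw
  have hM0 : 0 < M 0 := by
    have := hPM 0
    omega
  refine ⟨M, hM, hM0, fun N => ?_⟩
  have hP1 : ∀ j, 1 ≤ P j := by
    intro j
    have := hP.monotone (Nat.zero_le j)
    omega
  -- the coordinates
  have hcoord : ∀ F : Finset ℕ, ∑ i ∈ F, c i (((N : ℝ) + 1)⁻¹ •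
      ∑ n ∈ Finset.range (N + 1), dot (repAvg 1 M n) x - x0) =
      ((N : ℝ) + 1)⁻¹ * ∑ n ∈ Finset.range (N + 1), (M (kk M n) : ℝ)⁻¹ *
        ∑ i ∈ Finset.range (M (kk M n)), ∑ l ∈ F, c l (x (M (kk M n + i)) - x0) := by
    intro F
    let φ : X →L[ℝ] ℝ := ∑ i ∈ F, c i
    have hφ : ∀ z, φ z = ∑ i ∈ F, c i z := by
      intro z
      simp [φ]
    have h2 : ((N : ℝ) + 1)⁻¹ • ∑ n ∈ Finset.range (N + 1), dot (repAvg 1 M n) x - x0 =
        ((N : ℝ) + 1)⁻¹ • ∑ n ∈ Finset.range (N + 1), (M (kk M n) : ℝ)⁻¹ •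
          ∑ i ∈ Finset.range (M (kk M n)), (x (M (kk M n + i)) - x0) := by
      have h3 : ∀ n, (M (kk M n) : ℝ)⁻¹ •
          ∑ i ∈ Finset.range (M (kk M n)), (x (M (kk M n + i)) - x0) =
          dot (repAvg 1 M n) x - x0 := by
        intro n
        rw [dot_repAvg, Finset.sum_sub_distrib, smul_sub, Finset.sum_const, Finset.card_range,
          ← Nat.cast_smul_eq_nsmul ℝ, smul_smul, inv_mul_cancel₀, one_smul]
        have := M_ge hM hM0 (kk M n)
        have h4 : 0 < M (kk M n) := by omega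
        positivity
      rw [Finset.sum_congr rfl fun n _ => h3 n, Finset.sum_sub_distrib, smul_sub,
        Finset.sum_const, Finset.card_range, ← Nat.cast_smul_eq_nsmul ℝ, smul_smul]
      congr 1
      push_cast
      rw [inv_mul_cancel₀ (by positivity), one_smul]
    clear_value φ
    rw [← hφ, h2]
    simp only [map_smul, map_sum, smul_eq_mul]
    simp only [hφ]
  -- the estimate of r
  have hmain : ∀ (F : Finset ℕ) (w : ℝ), S2 F → 0 ≤ w → ((w = 1 ∧ S1 F) ∨ w = θ) →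
      w * |∑ i ∈ F, c i (((N : ℝ) + 1)⁻¹ •
      ∑ n ∈ Finset.range (N + 1), dot (repAvg 1 M n) x - x0)| ≤ θ + 14 / ((N : ℝ) + 1) := by
    intro F w hF hw0 hwF
    rcases F.eq_empty_or_nonempty with hFe | hFne
    · rw [hFe, Finset.sum_empty, abs_zero, mul_zero]
      positivity
    have hw1 : w ≤ 1 := by
      rcases hwF with h | h
      · exact h.1.le
      · rw [h]
        exact h1.le
    set m := F.min' hFne with hm
    have hmF : m ∈ F := F.min'_mem hFne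
    have hmle : ∀ i ∈ F, m ≤ i := fun i hi => F.min'_le i hi
    obtain ⟨j0, hj1, hj2⟩ := exists_interval hP hP0 m (hF.pos hmF)
    let r : ℕ → ℝ := fun j => w * ∑ i ∈ F, c i (x (M j) - x0)
    have hr : ∀ j, |r j| = w * |∑ i ∈ F, c i (x (M j) - x0)| := by
      intro j
      show |w * _| = _
      rw [abs_mul, abs_of_nonneg hw0]
    have hr2 : ∀ j, |r j| ≤ 2 := by
      intro j
      rw [hr]
      rcases hwF with h | h
      · rw [h.1, one_mul]
        exact (hlow1 _ F h.2).trans (hz _)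
      · rw [h]
        exact (hlow2 _ F hF).trans (hz _)
    have hrlt : ∀ j, j < j0 → |r j| ≤ (1 / 2) ^ j := by
      intro j hj
      rw [hr]
      have h2 := htail j F hF fun i hi => by
        have h3 : P (j + 1) ≤ P j0 := hP.monotone hj
        exact (h3.trans hj1).trans (hmle i hi)
      have h3 := abs_nonneg (∑ i ∈ F, c i (x (M j) - x0))
      nlinarith
    have hrgt : ∃ τ : ℕ → ℝ, (∀ j, 0 ≤ τ j) ∧
        (∀ K, ∑ j ∈ Finset.range K, τ j ≤ 4 * ((P (j0 + 1) : ℕ) : ℝ)) ∧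
        ∀ j, j0 < j → |r j| ≤ θ + 4 * (1 / 2) ^ j + τ j := by
      rcases hwF with hw' | hw'
      · -- sets of the first family
        refine ⟨fun j => 4 * (F.filter fun i => P j ≤ i ∧ i < P (j + 1)).card,
          fun j => by positivity, ?_, ?_⟩
        · intro K
          rw [← Finset.mul_sum]
          have h2 := sum_card_le' hP F K
          have h3 : F.card ≤ m := hw'.2 m hmF
          have h4 : ((∑ j ∈ Finset.range K,
            (F.filter fun i => P j ≤ i ∧ i < P (j + 1)).card : ℕ) : ℝ) ≤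
              ((P (j0 + 1) : ℕ) : ℝ) := by
            exact_mod_cast (h2.trans h3).trans hj2.le
          push_cast at h4
          linarith
        · intro j hj
          rw [hr, hw'.1, one_mul]
          have h2 := s1_est (c := c) hlow1 (z := x (M j) - x0) (P' := P (j + 1)) hw'.2 (hPQ j)
            (hhead j) (htail j) (hz _)
          have h3 : (0 : ℝ) ≤ (F.filter fun i => P j ≤ i ∧ i < P (j + 1)).card := by positivity
          have h4 : (0 : ℝ) ≤ (1 / 2 : ℝ) ^ j := by positivity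
          dsimp only
          linarith
      · -- sets of the second family
        obtain ⟨𝒢, hG1, hG2, hG3⟩ := hF
        have hF : S2 F := ⟨𝒢, hG1, hG2, hG3⟩
        refine ⟨fun j => 4 * (𝒢.filter fun G => (∀ i ∈ G, P j ≤ i) ∧ ∃ i ∈ G, i < P (j + 1)).card,
          fun j => by positivity, ?_, ?_⟩
        · intro K
          rw [← Finset.mul_sum]
          have h2 := sum_card_le hP 𝒢 K
          have h3 : 𝒢.card ≤ m := hG3 m hmF
          have h4 : ((∑ j ∈ Finset.range K,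
            (𝒢.filter fun G => (∀ i ∈ G, P j ≤ i) ∧ ∃ i ∈ G, i < P (j + 1)).card : ℕ) : ℝ) ≤
              ((P (j0 + 1) : ℕ) : ℝ) := by
            exact_mod_cast (h2.trans h3).trans hj2.le
          push_cast at h4
          linarith
        · intro j hj
          rw [hr, hw']
          have hjP : P (j0 + 1) ≤ P j := hP.monotone hj
          have hcard : 𝒢.card ≤ P j := ((hG3 m hmF).trans hj2.le).trans hjP
          have hPr : (1 : ℝ) ≤ P j := by exact_mod_cast hP1 j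
          have h2 := s2_est (c := c) h0 hlow1 hlow2 (y := x (M j)) (x0 := x0) (P := P j)
            (Q := Q j) (P' := P (j + 1)) (ε := (1 / 2 : ℝ) ^ j / ((P j : ℝ) + 1) ^ 2)
            (δ := (1 / 2 : ℝ) ^ j) hG1 hG2 hcard hF (hhead j) (htail j) (htailx j) (hx _) (hz _)
            (by positivity) (hQ4 j) (by
              rw [mul_div_assoc', div_le_iff₀ (by positivity)]
              have h4 : (0 : ℝ) ≤ (1 / 2 : ℝ) ^ j := by positivity
              have h5 : (P j : ℝ) ^ 2 ≤ ((P j : ℝ) + 1) ^ 2 := by nlinarith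
              nlinarith)
          have h3 : (0 : ℝ) ≤
            (𝒢.filter fun G => (∀ i ∈ G, P j ≤ i) ∧ ∃ i ∈ G, i < P (j + 1)).card := by positivity
          have h4 : (0 : ℝ) ≤ (1 / 2 : ℝ) ^ j := by positivity
          dsimp only
          have h5 := mul_le_mul_of_nonneg_left h2 h0.le
          nlinarith
    obtain ⟨τ, hτ0, hτ, hτr⟩ := hrgt
    have h2 := avg_bound hM hM0 h0.le r j0 (P (j0 + 1)) τ hr2 hrlt hτr hτ0 hτ (hP1 _)
      (fun i hi => (hP.monotone hi).trans (hPM i)) (N + 1)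
    have h3 : w * |∑ i ∈ F, c i (((N : ℝ) + 1)⁻¹ •
      ∑ n ∈ Finset.range (N + 1), dot (repAvg 1 M n) x - x0)| = ((N : ℝ) + 1)⁻¹ *
        |∑ n ∈ Finset.range (N + 1), (M (kk M n) : ℝ)⁻¹ *
        ∑ i ∈ Finset.range (M (kk M n)), r (kk M n + i)| := by
      rw [hcoord, abs_mul, abs_of_nonneg (by positivity : (0 : ℝ) ≤ ((N : ℝ) + 1)⁻¹)]
      have h4 : ∑ n ∈ Finset.range (N + 1), (M (kk M n) : ℝ)⁻¹ *
        ∑ i ∈ Finset.range (M (kk M n)), r (kk M n + i) =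
        w * ∑ n ∈ Finset.range (N + 1), (M (kk M n) : ℝ)⁻¹ *
        ∑ i ∈ Finset.range (M (kk M n)), ∑ l ∈ F, c l (x (M (kk M n + i)) - x0) := by
        show ∑ n ∈ Finset.range (N + 1), (M (kk M n) : ℝ)⁻¹ *
          ∑ i ∈ Finset.range (M (kk M n)), w * ∑ l ∈ F, c l (x (M (kk M n + i)) - x0) = _
        rw [Finset.mul_sum]
        apply Finset.sum_congr rfl
        intro n _
        rw [← Finset.mul_sum]
        ring
      rw [h4, abs_mul, abs_of_nonneg hw0]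
      ring
    rw [h3, inv_mul_le_iff₀ (by positivity)]
    refine h2.trans (le_of_eq ?_)
    push_cast
    field_simp
  apply hup _ _ (by positivity)
  · intro F hF
    have := hmain F 1 hF.s2 zero_le_one (Or.inl ⟨rfl, hF⟩)
    rwa [one_mul] at this
  · intro F hF
    exact hmain F θ hF h0.le (Or.inr rfl)

end

end Pool.Agent.Lib_MP_a61181_an
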